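import Pool.Agent.Helper54.DT.StmtsH
import Pool.Agent.Helper54.DI.NP

namespace Pool.Agent.Helper54.DT

open Pool.Agent.Helper54.ETR Pool.Agent.Helper54.Poly

/-- number of members with a property, by a filter -/
theorem PTcount {α β : Type} [TEnc α] [TEnc β] {f : β → Bool} (hf : PT f) {l : α → List β}
    (hl : PT l) : PT (fun a => (l a).countP f) := by
  have h1 : PT (fun z : α × β => if f z.2 then [()] else ([] : List Unit)) :=
    PT.ite (hf.comp PT.id.snd) (PT.const _) (PT.const _)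
  have h2 := PT.length (PT.flatMap h1 hl)
  refine h2.congr fun a => ?_
  induction l a with
  | nil => rfl
  | cons b l ih =>
    rw [List.flatMap_cons, List.length_append, ih, List.countP_cons]
    by_cases h : f b = true
    · simp [h, add_comm]
    · simp [h]

/-- comparison with a constant -/
theorem PTleE {α : Type} [TEnc α] (a : ℕ∞) {n : α → ℕ} (hn : PT n) :
    ∃ b : α → Bool, PT b ∧ ∀ x, b x = true ↔ ((n x : ℕ) : ℕ∞) ≤ a := by
  induction a using ENat.recTopCoe with
  | top => exact ⟨fun _ => true, PT.const _, fun x => by simp⟩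
  | coe m =>
    refine ⟨fun x => decide (n x ≤ m), PT.leN hn (PT.const m), fun x => ?_⟩
    rw [decide_eq_true_eq, Nat.cast_le]

theorem st_BACKP (hD : ST_DGS) : ST_BACKP := by
  intro a b c
  obtain ⟨dg, hp, hd, hn⟩ := hD
  have e2 : PT (fun n : ℕ => decide (n = 2)) := PT.eqN PT.id (PT.const 2)
  have e3 : PT (fun n : ℕ => decide (n = 3)) := PT.eqN PT.id (PT.const 3)
  have e4 : PT (fun n : ℕ => decide (4 ≤ n)) := PT.leN (PT.const 4) PT.id
  obtain ⟨B2, hB2, hb2⟩ := PTleE a (PTcount e2 (PT.id (α := List ℕ)))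
  obtain ⟨B3, hB3, hb3⟩ := PTleE b (PTcount e3 (PT.id (α := List ℕ)))
  obtain ⟨B4, hB4, hb4⟩ := PTleE c (PTcount e4 (PT.id (α := List ℕ)))
  have hc : PT (fun l : List ℕ => B2 l && (B3 l && B4 l)) := PT.and hB2 (PT.and hB3 hB4)
  have h1 : PT (fun z : List Bool × List ℕ =>
      if (B2 z.2 && (B3 z.2 && B4 z.2)) then z.1 else DI.fls.code) :=
    PT.ite (hc.comp PT.id.snd) PT.id.fst (PT.const _)
  have hf := PT.optCase hp (PT.const DI.fls.code) h1
  refine ⟨_, polytime_list (fun l : List Bool => l) _ _ (PT.reverse hf) fun _ => rfl, ?_⟩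
  intro u
  have key : ∀ φ : Form, (B2 (φ.atoms.map (atomDeg ∅)) && (B3 (φ.atoms.map (atomDeg ∅)) &&
      B4 (φ.atoms.map (atomDeg ∅)))) = true ↔ φ.Prof ∅ a b c := by
    intro φ
    rw [Bool.and_eq_true, Bool.and_eq_true, hb2, hb3, hb4]
    unfold Form.Prof
    simp only [List.countP_map, id]
    rfl
  constructor
  · rintro ⟨φ, hu, ⟨X, hX, hP⟩, x, hx⟩
    have hX' : X = ∅ := Finset.card_eq_zero.mp (Nat.le_zero.mp hX)
    subst hX'
    subst hu
    rw [hd φ]
    simp only [(key φ).2 hP, if_true]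
    exact ⟨φ, rfl, x, hx⟩
  · intro hu
    by_cases h : ∃ φ : Form, u = φ.code
    · obtain ⟨φ, rfl⟩ := h
      rw [hd φ] at hu
      simp only at hu
      by_cases hP : φ.Prof ∅ a b c
      · rw [if_pos ((key φ).2 hP)] at hu
        obtain ⟨ψ, h1, x, hx⟩ := hu
        rw [← code_injective h1] at hx
        exact ⟨φ, rfl, ⟨∅, le_rfl, hP⟩, x, hx⟩
      · rw [if_neg (fun h => hP ((key φ).1 h))] at hu
        obtain ⟨ψ, h1, x, hx⟩ := hu
        rw [← code_injective h1] at hx
        exact absurd hx (DI.fls_not x)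
    · rw [hn u (fun φ hφ => h ⟨φ, hφ⟩)] at hu
      simp only at hu
      obtain ⟨ψ, h1, x, hx⟩ := hu
      rw [← code_injective h1] at hx
      exact absurd hx (DI.fls_not x)

end Pool.Agent.Helper54.DT
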