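import Pool.Agent.Helper54.DT.StmtsH
import Pool.Agent.Helper54.DI.NP

namespace Pool.Agent.Helper54.DT

open Pool.Agent.Helper54.ETR Pool.Agent.Helper54.Poly

theorem prof_mono {X : Finset ℕ} {a b c a' b' c' : ℕ∞} (ha : a ≤ a') (hb : b ≤ b') (hc : c ≤ c')
    {φ : Form} (h : φ.Prof X a b c) : φ.Prof X a' b' c' :=
  ⟨h.1.trans ha, h.2.1.trans hb, h.2.2.trans hc⟩

theorem red_prof {P : Form → Prop} {a b c : ℕ∞} (h : RedTo P) (hP : ∀ φ, P φ → φ.Prof ∅ a b c) :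
    PolyRed ETR (PROF 0 a b c) := by
  obtain ⟨f, hf, h⟩ := h
  refine ⟨f, hf, fun u => ?_⟩
  obtain ⟨φ, h1, h2, h3⟩ := h u
  constructor
  · intro hu
    exact ⟨φ, h1, ⟨∅, le_rfl, hP φ h2⟩, h3.1 hu⟩
  · rintro ⟨ψ, h4, -, h5⟩
    rw [h1] at h4
    rw [← code_injective h4] at h5
    exact h3.2 h5

theorem red_prof2 {P : Form → Prop} {a b c : ℕ∞} (h : RedTo P)
    (hP : ∀ φ, P φ → φ.Prof ∅ a b c ∧ φ.atoms.length ≤ 2) : PolyRed ETR (PROF2 a b c) := by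
  obtain ⟨f, hf, h⟩ := h
  refine ⟨f, hf, fun u => ?_⟩
  obtain ⟨φ, h1, h2, h3⟩ := h u
  constructor
  · intro hu
    exact ⟨φ, h1, (hP φ h2).1, (hP φ h2).2, h3.1 hu⟩
  · rintro ⟨ψ, h4, -, -, h5⟩
    rw [h1] at h4
    rw [← code_injective h4] at h5
    exact h3.2 h5

theorem st_MAIN3 (hF : ST_HARDF) (hB : ST_BACKP) (hN : ST_NPP) (hS : ST_SDPR) (hR : ST_SSR) :
    ST_MAIN3 := by
  refine ⟨hN, ⟨hR, hS⟩, fun a b c h1 h2 => ?_⟩
  obtain ⟨h23, h33, h4, hq⟩ := hF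
  have hB' := hB a b c
  by_cases hc : c = 0
  · by_cases hb : b = 0
    · have ha : a = ⊤ := by
        by_contra ha
        exact h1 ⟨hb, hc, ha⟩
      subst hb hc ha
      exact ⟨red_prof hq fun φ h => h, hB', fun h => by simp at h⟩
    · by_cases hb1 : b = 1
      · have ha : a ≠ 0 := fun ha => h2 ⟨ha, hb1, hc⟩
        subst hb1 hc
        have ha' : 1 ≤ a := Order.one_le_iff_ne_zero.mpr ha
        exact ⟨red_prof h23 fun φ h => prof_mono ha' le_rfl le_rfl h.1, hB', fun _ =>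
          red_prof2 h23 fun φ h => ⟨prof_mono ha' le_rfl le_rfl h.1, h.2⟩⟩
      · have hb' : 2 ≤ b := by
          have h3 : 1 ≤ b := Order.one_le_iff_ne_zero.mpr hb
          have h4 : 1 < b := lt_of_le_of_ne h3 (Ne.symm hb1)
          have h5 := Order.add_one_le_of_lt h4
          rwa [one_add_one_eq_two] at h5
        subst hc
        exact ⟨red_prof h33 fun φ h => prof_mono bot_le hb' le_rfl h.1, hB', fun _ =>
          red_prof2 h33 fun φ h => ⟨prof_mono bot_le hb' le_rfl h.1, h.2⟩⟩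
  · have hc' : 1 ≤ c := Order.one_le_iff_ne_zero.mpr hc
    exact ⟨red_prof h4 fun φ h => prof_mono bot_le bot_le hc' h.1, hB', fun _ =>
      red_prof2 h4 fun φ h => ⟨prof_mono bot_le bot_le hc' h.1, h.2⟩⟩

end Pool.Agent.Helper54.DT
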