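import Pool.Agent.Helper54.DT.StmtsS
import Pool.Agent.Helper54.ETRMain

namespace Pool.Agent.Helper54.DT

open Pool.Agent.Helper54.ETR Pool.Agent.Helper54.Poly

theorem frag_iff (k a : ℕ) (φ : Form) : φ.Frag k a ↔
    ∃ X : Finset ℕ, X.card ≤ k ∧ φ.Prof X a 0 0 := by
  unfold Form.Frag Form.Prof
  refine exists_congr fun X => and_congr Iff.rfl ?_
  rw [Nat.cast_le, ← Nat.cast_zero (R := ℕ∞), Nat.cast_le, Nat.cast_le, Nat.le_zero, Nat.le_zero,
    List.countP_eq_zero, List.countP_eq_zero]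
  simp only [decide_eq_true_eq]
  constructor
  · rintro ⟨h1, h2⟩
    refine ⟨h2, fun z hz => ?_, fun z hz => ?_⟩
    · have := h1 z hz
      omega
    · have := h1 z hz
      omega
  · rintro ⟨h1, h2, h3⟩
    refine ⟨fun z hz => ?_, h1⟩
    have := h2 z hz
    have := h3 z hz
    omega

theorem st_NPP : ST_NPP := by
  intro k a
  have h := frag_inNP k a
  have e : PROF k a 0 0 = {s | ∃ φ : Form, s = φ.code ∧ φ.Frag k a ∧ ∃ x : ℕ → ℝ, φ.Holds x} := by
    ext u
    simp only [PROF, Set.mem_setOf_eq, frag_iff]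
  rw [e]
  exact h

end Pool.Agent.Helper54.DT
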