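import Pool.Agent.Helper54.DT.StmtsS
import Pool.Agent.Helper54.ETRMain
import Pool.Agent.Helper54.DI.NP

namespace Pool.Agent.Helper54.DT

open Finset Pool.Agent.Helper54.ETR Pool.Agent.Helper54.Poly

/-! ### records -/

/-- records: degree, sign bits, sides -/
abbrev Rec (σ : Type) := ℕ × ((Bool × Bool) × (σ × σ))

section rec
variable {τ σ : Type}

/-- oriented sides of a linear record -/
def lpair (r : Rec σ) : σ × σ := if r.2.1.1 || !r.2.1.2 then r.2.2 else (r.2.2.2, r.2.2.1)

def klK (r : Rec σ) : ℕ := if r.2.1.1 then 0 else 1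

def gp0 (r : Rec σ) : σ × σ := if r.2.1.1 || r.2.1.2 then r.2.2 else (r.2.2.2, r.2.2.1)

def gp1 (r : Rec σ) : σ × σ := if !r.2.1.1 && r.2.1.2 then r.2.2 else (r.2.2.2, r.2.2.1)

def lins (rs : List (Rec σ)) : List (Rec σ) := rs.filter fun r => decide (r.1 ≤ 1)

def nls (rs : List (Rec σ)) : List (Rec σ) := rs.filter fun r => !decide (r.1 ≤ 1)

/-- at most one nonlinear record, of degree three -/
def chk (rs : List (Rec σ)) : Bool :=
  decide ((nls rs).length ≤ 1) && (nls rs).all fun r => decide (r.1 = 3)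

/-- the nonlinear record -/
def nlr (z e : σ) (rs : List (Rec σ)) : Rec σ := (nls rs).getD 0 (3, ((false, true), (z, e)))

/-- the instance of a list of records -/
def iR (o : Ops τ) (P : σ × σ → List ℕ → List ℕ → τ) (z e : σ) (n : ℕ) (w : List Bool)
    (rs : List (Rec σ)) : List (List (List τ)) :=
  instO o P n (fun i => (w.drop (2 * n + 2)).getD i false) ((lins rs).map klK)
    ((lins rs).map lpair) (gp0 (nlr z e rs)) (gp1 (nlr z e rs))
    (!(nlr z e rs).2.1.1 || w.getD (2 * n) false)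
    (!(nlr z e rs).2.1.1 || w.getD (2 * n + 1) false)

end rec

/-! ### computability -/

section pt
variable {α : Type} [TEnc α]

theorem PTfilt {β : Type} [TEnc β] {f : β → Bool} (hf : PT f) {l : α → List β}
    (hl : PT l) : PT (fun a => (l a).filter f) := by
  have h1 : PT (fun z : α × β => if f z.2 then [z.2] else ([] : List β)) :=
    PT.ite (hf.comp PT.id.snd) (PT.lcons PT.id.snd (PT.const _)) (PT.const _)
  have h2 := PT.flatMap h1 hl
  refine h2.congr fun a => ?_
  induction l a with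
  | nil => rfl
  | cons b l ih =>
    rw [List.flatMap_cons, ih]
    by_cases h : f b = true
    · simp [h]
    · simp [h]

theorem PTallc {β : Type} [TEnc β] {f : β → Bool} (hf : PT f) {l : α → List β}
    (hl : PT l) : PT (fun a => (l a).all f) :=
  PT.all (f := fun z : α × β => f z.2) (hf.comp PT.id.snd) hl

abbrev RK := Rec (List Tok)

theorem PTle1 : PT (fun r : RK => decide (r.1 ≤ 1)) := PT.leN PT.id.fst (PT.const 1)

theorem PTlins {rs : α → List RK} (h : PT rs) : PT (fun a => lins (rs a)) := PTfilt PTle1 h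

theorem PTnls {rs : α → List RK} (h : PT rs) : PT (fun a => nls (rs a)) :=
  PTfilt (PT.not PTle1) h

theorem PTchk {rs : α → List RK} (h : PT rs) : PT (fun a => chk (rs a)) :=
  PT.and (PT.leN (PT.length (PTnls h)) (PT.const 1))
    (PTallc (PT.eqN (f := fun r : RK => r.1) PT.id.fst (PT.const 3)) (PTnls h))

theorem PTnlr {rs : α → List RK} (h : PT rs) :
    PT (fun a => nlr [Tok.zero] [Tok.one] (rs a)) :=
  PT.getD (PT.const 0) (PTnls h) (PT.const _)

theorem PTlpair : PT (fun r : RK => lpair r) :=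
  PT.ite (PT.or PT.id.snd.fst.fst (PT.not PT.id.snd.fst.snd)) PT.id.snd.snd
    (PT.id.snd.snd.snd.pair PT.id.snd.snd.fst)

theorem PTklK : PT (fun r : RK => klK r) :=
  PT.ite PT.id.snd.fst.fst (PT.const 0) (PT.const 1)

theorem PTgp0 : PT (fun r : RK => gp0 r) :=
  PT.ite (PT.or PT.id.snd.fst.fst PT.id.snd.fst.snd) PT.id.snd.snd
    (PT.id.snd.snd.snd.pair PT.id.snd.snd.fst)

theorem PTgp1 : PT (fun r : RK => gp1 r) :=
  PT.ite (PT.and (PT.not PT.id.snd.fst.fst) PT.id.snd.fst.snd) PT.id.snd.snd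
    (PT.id.snd.snd.snd.pair PT.id.snd.snd.fst)

theorem PTmp {β γ : Type} [TEnc β] [TEnc γ] {f : β → γ} (hf : PT f) {l : α → List β}
    (hl : PT l) : PT (fun a => (l a).map f) :=
  PT.map (f := fun z : α × β => f z.2) (hf.comp PT.id.snd) hl

/-- the value at an integer point, on symbols -/
def PS (sb : List Tok × (List ℕ × List ℕ) → List Tok)
    (z : (List Tok × List Tok) × (List ℕ × List ℕ)) : List Tok :=
  Tok.sub :: (sb (z.1.1, z.2) ++ sb (z.1.2, z.2))

theorem PTPS {sb : List Tok × (List ℕ × List ℕ) → List Tok} (h : PT sb) :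
    PT (fun z => PS sb z) := by
  have h1 : PT (fun z : (List Tok × List Tok) × (List ℕ × List ℕ) => sb (z.1.1, z.2)) :=
    h.comp (PT.id.fst.fst.pair PT.id.snd)
  have h2 : PT (fun z : (List Tok × List Tok) × (List ℕ × List ℕ) => sb (z.1.2, z.2)) :=
    h.comp (PT.id.fst.snd.pair PT.id.snd)
  exact PT.lcons (PT.const _) (PT.append h1 h2)

theorem PTiR (hI : ST_PTI) {sb : List Tok × (List ℕ × List ℕ) → List Tok} (hs : PT sb)
    {n : α → ℕ} {w : α → List Bool} {rs : α → List RK} (hn : PT n) (hw : PT w) (hr : PT rs) :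
    PT (fun a => iR oK (fun z l1 l2 => PS sb (z, (l1, l2))) [Tok.zero] [Tok.one] (n a) (w a)
      (rs a)) := by
  have h2n : PT (fun a => 2 * n a) := PT.mul (PT.const 2) hn
  have h1 := PTlins hr
  have h3 := PTnlr hr
  have hb : PT (fun a => !(nlr [Tok.zero] [Tok.one] (rs a)).2.1.1) := PT.not h3.snd.fst.fst
  exact hI _ (PTPS hs) α n (fun a => (w a).drop (2 * n a + 2))
    (fun a => (lins (rs a)).map klK) (fun a => (lins (rs a)).map lpair)
    (fun a => gp0 (nlr [Tok.zero] [Tok.one] (rs a))) (fun a => gp1 (nlr [Tok.zero] [Tok.one] (rs a)))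
    _ _ hn (PT.drop (PT.add h2n (PT.const 2)) hw) (PTmp PTklK h1) (PTmp PTlpair h1)
    (PTgp0.comp h3) (PTgp1.comp h3)
    (PT.or hb (PT.getD h2n hw (PT.const false)))
    (PT.or hb (PT.getD (PT.add h2n (PT.const 1)) hw (PT.const false)))

end pt

/-! ### naturality -/

theorem lins_rk (rs : List (Rec Term)) : lins (rs.map rk) = (lins rs).map rk := by
  unfold lins
  rw [List.filter_map]
  rfl

theorem nls_rk (rs : List (Rec Term)) : nls (rs.map rk) = (nls rs).map rk := by
  unfold nls
  rw [List.filter_map]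
  rfl

theorem chk_rk (rs : List (Rec Term)) : chk (rs.map rk) = chk rs := by
  unfold chk
  rw [nls_rk, List.length_map, List.all_map]
  rfl

theorem nlr_rk (rs : List (Rec Term)) :
    nlr [Tok.zero] [Tok.one] (rs.map rk) = rk (nlr Term.zero Term.one rs) := by
  unfold nlr
  rw [nls_rk]
  cases nls rs <;> rfl

def tp (z : Term × Term) : List Tok × List Tok := (z.1.toks, z.2.toks)

theorem klK_rk (r : Rec Term) : klK (rk r) = klK r := rfl

theorem lpair_rk (r : Rec Term) : lpair (rk r) = tp (lpair r) := by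
  unfold lpair
  change (if r.2.1.1 || !r.2.1.2 then _ else _) = _
  split_ifs <;> rfl

theorem gp0_rk (r : Rec Term) : gp0 (rk r) = tp (gp0 r) := by
  unfold gp0
  change (if r.2.1.1 || r.2.1.2 then _ else _) = _
  split_ifs <;> rfl

theorem gp1_rk (r : Rec Term) : gp1 (rk r) = tp (gp1 r) := by
  unfold gp1
  change (if !r.2.1.1 && r.2.1.2 then _ else _) = _
  split_ifs <;> rfl

theorem PS_toks {sb : List Tok × (List ℕ × List ℕ) → List Tok}
    (hs : ∀ (t : Term) (l1 l2 : List ℕ), sb (t.toks, (l1, l2)) = (subst (pT l1 l2) t).toks)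
    (z : Term × Term) (l1 l2 : List ℕ) :
    (PPT z l1 l2).toks = PS sb ((z.1.toks, z.2.toks), (l1, l2)) := by
  unfold PS PPT
  simp only [hs, Term.toks]

theorem mapM_iR (hN : ST_NAT) {sb : List Tok × (List ℕ × List ℕ) → List Tok}
    (hs : ∀ (t : Term) (l1 l2 : List ℕ), sb (t.toks, (l1, l2)) = (subst (pT l1 l2) t).toks)
    (n : ℕ) (w : List Bool) (rs : List (Rec Term)) :
    mapM (iR oT PPT Term.zero Term.one n w rs) =
      iR oK (fun z l1 l2 => PS sb (z, (l1, l2))) [Tok.zero] [Tok.one] n w (rs.map rk) := by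
  unfold iR
  rw [hN (fun z l1 l2 => PS sb (z, (l1, l2))) (fun z l1 l2 => PS_toks hs z l1 l2), lins_rk, nlr_rk,
    gp0_rk, gp1_rk, List.map_map, List.map_map, List.map_map]
  have e1 : (klK ∘ rk : Rec Term → ℕ) = klK := rfl
  have e2 : (lpair ∘ rk : Rec Term → _) = (fun z : Term × Term => (z.1.toks, z.2.toks)) ∘ lpair :=
    funext fun r => lpair_rk r
  rw [e1, e2]
  rfl

/-! ### semantics -/

theorem half_tg {M R : ℕ} {E : ℕ → ℕ → ℝ} {kd : ℕ → ℕ} {tg tg' : ℕ → Bool}
    {S : ℕ → ℕ → ℕ → ℝ} {md : Bool} {y : ℕ → ℕ → ℕ → ℝ} {L : ℕ → ℕ → ℕ → ℕ → ℝ} {X : ℕ → ℝ} {ε : ℝ}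
    (h : Half M R E kd tg S md y L X ε) (ht : ∀ r < R, tg r = tg' r) :
    Half M R E kd tg' S md y L X ε := by
  refine { y0 := h.y0, y1 := h.y1, y2 := h.y2, mom := h.mom,
           tight := fun r hr hh => h.tight r hr (by rw [ht r hr]; exact hh), row := h.row,
           lam := fun r hr hh => h.lam r hr (by rw [ht r hr]; exact hh), loc := ?_, x0 := h.x0,
           xz := h.xz, xp := h.xp, xw := h.xw, ep := h.ep, m1 := h.m1, m2 := h.m2 }
  intro v
  have e : locF M R E tg' S y L = locF M R E tg S y L := by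
    funext a α b β
    unfold locF
    congr 1
    refine Finset.sum_congr rfl fun r hr => ?_
    rw [ht r (Finset.mem_range.mp hr)]
  rw [e]
  exact h.loc v

/-- the number of rows -/
abbrev NR (n : ℕ) (lin : List (Term × Term)) : ℕ := lin.length + 1 + 2 * (n + 1)

theorem sem_half (hS : ST_SEM) (hC : ST_CFE) (hR : ST_ROWE) (n : ℕ) (kl : List ℕ)
    (lin : List (Term × Term)) (f : Term × Term) (tg : ℕ → Bool) (md : Bool) (h : ℕ) (x : ℕ → ℝ) :
    (∀ B ∈ half oT (n + 2) (NR n lin) (rowC oT (lin.map PPT)) (rowK kl) tg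
      (cf3 oT (PPT f)) md h, PsdAt x B) ↔
    (Half (n + 2) (NR n lin) (rowC oR (lin.map PPR)) (rowK kl) tg (cf3 oR (PPR f)) md
      (fun a b c => x (vy h a b c)) (fun r a b c => x (vL h r a b c)) (fun a => x (vX h a))
      (x (ve h)) ∧ 1 ≤ x (ve h) * x (vt2 h)) := by
  rw [hS (n + 2) (NR n lin) (rowC oT (lin.map PPT)) (rowK kl) tg (cf3 oT (PPT f)) md h x (by omega)]
  have e1 : (fun r m => (rowC oT (lin.map PPT) r m).eval x) = rowC oR (lin.map PPR) :=
    funext fun r => funext fun m => (hR lin x r m).2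
  have e2 : (fun a b c => (cf3 oT (PPT f) a b c).eval x) = cf3 oR (PPR f) :=
    funext fun a => funext fun b => funext fun c => ((hC f x).2.1 a b c).2
  rw [e1, e2]

theorem isMat_iR (hI : ST_ISM) (hC : ST_CFE) (hR : ST_ROWE) (n : ℕ) (w : List Bool)
    (rs : List (Rec Term)) : ∀ B ∈ iR oT PPT Term.zero Term.one n w rs, IsMat B := by
  intro B hB
  unfold iR instO at hB
  rw [List.mem_append] at hB
  have sym : ∀ (f : Term × Term) (a b c : ℕ) (x : ℕ → ℝ),
      (cf3 oT (PPT f) a b c).eval x = (cf3 oT (PPT f) b a c).eval x := by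
    intro f a b c x
    rw [((hC f x).2.1 a b c).2, ((hC f x).2.1 b a c).2]
    exact (hC f x).2.2.s1 a b c
  rcases hB with hB | hB
  · exact hI _ _ _ _ _ _ _ _ (fun r m => (hR _ (fun _ => 0) r m).1)
      (fun a b c => ((hC _ (fun _ => 0)).2.1 a b c).1) (fun a b c x => sym _ a b c x) B hB
  · exact hI _ _ _ _ _ _ _ _ (fun r m => (hR _ (fun _ => 0) r m).1)
      (fun a b c => ((hC _ (fun _ => 0)).2.1 a b c).1) (fun a b c x => sym _ a b c x) B hB

theorem lin_iff (rs : List (Rec Term)) (x : ℕ → ℝ) :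
    LinAt (rs.map klK) (rs.map lpair) x ↔ ∀ r ∈ rs, sgh r.2.1 r.2.2 x := by
  unfold LinAt
  rw [List.zip_map']
  constructor
  · intro h r hr
    have h1 := h _ (List.mem_map.mpr ⟨r, hr, rfl⟩)
    obtain ⟨d, ⟨b1, b2⟩, s, t⟩ := r
    cases b1 <;> cases b2 <;> simp [sgh, klK, lpair] at h1 ⊢ <;> exact h1
  · intro h z hz
    obtain ⟨r, hr, rfl⟩ := List.mem_map.mp hz
    have h1 := h r hr
    obtain ⟨d, ⟨b1, b2⟩, s, t⟩ := r
    cases b1 <;> cases b2 <;> simp [sgh, klK, lpair] at h1 ⊢ <;> exact h1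

theorem split_iff (rs : List (Rec Term)) (hc : chk rs = true) (x : ℕ → ℝ) :
    (∀ r ∈ rs, sgh r.2.1 r.2.2 x) ↔ (∀ r ∈ lins rs, sgh r.2.1 r.2.2 x) ∧
      sgh (nlr Term.zero Term.one rs).2.1 (nlr Term.zero Term.one rs).2.2 x := by
  have h1 : (∀ r ∈ rs, sgh r.2.1 r.2.2 x) ↔ (∀ r ∈ lins rs, sgh r.2.1 r.2.2 x) ∧
      ∀ r ∈ nls rs, sgh r.2.1 r.2.2 x := by
    constructor
    · intro h
      exact ⟨fun r hr => h r (List.mem_filter.mp hr).1, fun r hr => h r (List.mem_filter.mp hr).1⟩
    · rintro ⟨h1, h2⟩ r hr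
      by_cases hd : r.1 ≤ 1
      · exact h1 r (List.mem_filter.mpr ⟨hr, by simpa using hd⟩)
      · exact h2 r (List.mem_filter.mpr ⟨hr, by simpa using hd⟩)
  rw [h1]
  refine and_congr Iff.rfl ?_
  unfold chk at hc
  rw [Bool.and_eq_true, decide_eq_true_eq] at hc
  have h2 := hc.1
  unfold nlr
  generalize nls rs = l at h2 ⊢
  rcases l with _ | ⟨r, l⟩
  · simp [sgh, Term.eval]
  · have : l = [] := by
      rw [List.length_cons] at h2
      exact List.length_eq_zero_iff.mp (by omega)
    subst this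
    simp

/-- the conditions on the records -/
structure ROK (n : ℕ) (rs : List (Rec Term)) : Prop where
  dg : ∀ r ∈ rs, r.1 = max (r.2.2.1.deg ∅) (r.2.2.2.deg ∅)
  bl : ∀ r ∈ rs, r.2.2.1.Below n ∧ r.2.2.2.Below n

theorem linOK (n : ℕ) (rs : List (Rec Term)) (h : ROK n rs) :
    LinOK n ((lins rs).map klK) ((lins rs).map lpair) := by
  refine ⟨by rw [List.length_map, List.length_map], ?_, ?_⟩
  · intro k hk
    obtain ⟨r, hr, rfl⟩ := List.mem_map.mp hk
    unfold klK
    split_ifs <;> omega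
  · intro z hz
    obtain ⟨r, hr, rfl⟩ := List.mem_map.mp hz
    obtain ⟨hr1, hr2⟩ := List.mem_filter.mp hr
    have h1 := h.dg r hr1
    have h2 := h.bl r hr1
    have h3 : r.1 ≤ 1 := by simpa using hr2
    have h4 : r.2.2.1.deg ∅ ≤ 1 := by omega
    have h5 : r.2.2.2.deg ∅ ≤ 1 := by omega
    unfold lpair
    split_ifs
    · exact ⟨h4, h5, h2.1, h2.2⟩
    · exact ⟨h5, h4, h2.2, h2.1⟩

theorem nlr_ok (n : ℕ) (rs : List (Rec Term)) (h : ROK n rs) (hc : chk rs = true) :
    (nlr Term.zero Term.one rs).2.2.1.deg ∅ ≤ 3 ∧ (nlr Term.zero Term.one rs).2.2.2.deg ∅ ≤ 3 ∧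
    (nlr Term.zero Term.one rs).2.2.1.Below n ∧ (nlr Term.zero Term.one rs).2.2.2.Below n := by
  unfold chk at hc
  rw [Bool.and_eq_true, decide_eq_true_eq, List.all_eq_true] at hc
  have h2 : ∀ r ∈ nls rs, r.2.2.1.deg ∅ ≤ 3 ∧ r.2.2.2.deg ∅ ≤ 3 ∧ r.2.2.1.Below n ∧
      r.2.2.2.Below n := by
    intro r hr
    have h1 := hc.2 r hr
    have h3 : r.1 = 3 := by simpa using h1
    have h4 := h.dg r (List.mem_filter.mp hr).1
    have h5 := h.bl r (List.mem_filter.mp hr).1
    exact ⟨by omega, by omega, h5.1, h5.2⟩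
  unfold nlr
  rcases hl : nls rs with _ | ⟨r, l⟩
  · exact ⟨by simp [Term.deg], by simp [Term.deg], trivial, trivial⟩
  · exact h2 r (by rw [hl]; exact List.mem_cons_self)

/-- soundness of the instance -/
theorem iR_sound (hS : ST_SEM) (hC : ST_CFE) (hR : ST_ROWE) (hH : ST_HX) (hV : ST_IVT) (n : ℕ)
    (w : List Bool) (rs : List (Rec Term)) (ho : ROK n rs) (hc : chk rs = true) (x : ℕ → ℝ)
    (hx : ∀ B ∈ iR oT PPT Term.zero Term.one n w rs, PsdAt x B) :
    ∃ x : ℕ → ℝ, ∀ r ∈ rs, sgh r.2.1 r.2.2 x := by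
  obtain ⟨k1, k2, k3, k4⟩ := nlr_ok n rs ho hc
  have hl := linOK n rs ho
  unfold iR instO at hx
  rw [List.forall_mem_append] at hx
  generalize hρ : nlr Term.zero Term.one rs = ρ at hx k1 k2 k3 k4
  obtain ⟨hx0, hx1⟩ := hx
  have h0 := ((sem_half hS hC hR n _ ((lins rs).map lpair) _ _ _ 0 x).1 hx0).1
  have h1 := ((sem_half hS hC hR n _ ((lins rs).map lpair) _ _ _ 1 x).1 hx1).1
  have tgk : ∀ (wb : ℕ → Bool) (r : ℕ), rowK ((lins rs).map klK) r = 0 →
      (decide (rowK ((lins rs).map klK) r = 0) || wb r) = true := by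
    intro wb r hr
    simp [hr]
  suffices h : ∃ x : ℕ → ℝ, LinAt ((lins rs).map klK) ((lins rs).map lpair) x ∧
      sgh ρ.2.1 ρ.2.2 x by
    obtain ⟨z, hz1, hz2⟩ := h
    refine ⟨z, (split_iff rs hc z).2 ⟨(lin_iff (lins rs) z).1 hz1, ?_⟩⟩
    rw [hρ]
    exact hz2
  obtain ⟨d, ⟨b1, b2⟩, s, t⟩ := ρ
  cases b1
  · cases b2
    · -- t < s
      obtain ⟨z, hz1, _, hz3⟩ := (hH n _ _ (t, s) hl k2 k1 k4 k3).1 _ _ _ _ _ _
        (tgk (fun r => (w.drop (2 * n + 2)).getD (2 * r) false)) h0
      exact ⟨z, hz1, by simpa [sgh] using hz3 (by simp)⟩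
    · obtain ⟨z, hz1, _, hz3⟩ := (hH n _ _ (s, t) hl k1 k2 k3 k4).1 _ _ _ _ _ _
        (tgk (fun r => (w.drop (2 * n + 2)).getD (2 * r) false)) h0
      exact ⟨z, hz1, by simpa [sgh] using hz3 (by simp)⟩
  · obtain ⟨z0, hz1, hz2, _⟩ := (hH n _ _ (s, t) hl k1 k2 k3 k4).1 _ _ _ _ _ _
      (tgk (fun r => (w.drop (2 * n + 2)).getD (2 * r) false)) h0
    obtain ⟨z1, hz3, hz4, _⟩ := (hH n _ _ (t, s) hl k2 k1 k4 k3).1 _ _ _ _ _ _
      (tgk (fun r => (w.drop (2 * n + 2)).getD (2 * r + 1) false)) h1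
    obtain ⟨z, hz, hz'⟩ := hV n _ _ (s, t) hl z0 z1 hz1 hz3 hz2 hz4
    exact ⟨z, hz, by simpa [sgh] using hz'⟩

/-- the halves -/
theorem halves (hH : ST_HX) (n : ℕ) (rs : List (Rec Term)) (ho : ROK n rs) (hc : chk rs = true)
    (x : ℕ → ℝ) (hx : ∀ r ∈ rs, sgh r.2.1 r.2.2 x) :
    ∃ (b0 b1 : Bool) (tg : ℕ → ℕ → Bool) (y : ℕ → ℕ → ℕ → ℕ → ℝ) (L : ℕ → ℕ → ℕ → ℕ → ℕ → ℝ)
      (X : ℕ → ℕ → ℝ) (ε : ℕ → ℝ),
      Half (n + 2) (NR n ((lins rs).map lpair)) (rowC oR (((lins rs).map lpair).map PPR))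
        (rowK ((lins rs).map klK)) (fun r => decide (rowK ((lins rs).map klK) r = 0) || tg 0 r)
        (cf3 oR (PPR (gp0 (nlr Term.zero Term.one rs))))
        (!(nlr Term.zero Term.one rs).2.1.1 || b0) (y 0) (L 0) (X 0) (ε 0) ∧
      Half (n + 2) (NR n ((lins rs).map lpair)) (rowC oR (((lins rs).map lpair).map PPR))
        (rowK ((lins rs).map klK)) (fun r => decide (rowK ((lins rs).map klK) r = 0) || tg 1 r)
        (cf3 oR (PPR (gp1 (nlr Term.zero Term.one rs))))
        (!(nlr Term.zero Term.one rs).2.1.1 || b1) (y 1) (L 1) (X 1) (ε 1) := by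
  obtain ⟨k1, k2, k3, k4⟩ := nlr_ok n rs ho hc
  have hl := linOK n rs ho
  obtain ⟨hx1, hx2⟩ := (split_iff rs hc x).1 hx
  have hx3 := (lin_iff (lins rs) x).2 hx1
  generalize nlr Term.zero Term.one rs = ρ at hx2 k1 k2 k3 k4
  have comb : ∀ (f0 f1 : Term × Term) (m : Bool),
      (∃ (md : Bool) (tg : ℕ → Bool) (y : ℕ → ℕ → ℕ → ℝ) (L : ℕ → ℕ → ℕ → ℕ → ℝ) (X : ℕ → ℝ)
        (ε : ℝ), Half (n + 2) (NR n ((lins rs).map lpair)) (rowC oR (((lins rs).map lpair).map PPR))
        (rowK ((lins rs).map klK)) (fun r => decide (rowK ((lins rs).map klK) r = 0) || tg r)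
        (cf3 oR (PPR f0)) (m || md) y L X ε) →
      (∃ (md : Bool) (tg : ℕ → Bool) (y : ℕ → ℕ → ℕ → ℝ) (L : ℕ → ℕ → ℕ → ℕ → ℝ) (X : ℕ → ℝ)
        (ε : ℝ), Half (n + 2) (NR n ((lins rs).map lpair)) (rowC oR (((lins rs).map lpair).map PPR))
        (rowK ((lins rs).map klK)) (fun r => decide (rowK ((lins rs).map klK) r = 0) || tg r)
        (cf3 oR (PPR f1)) (m || md) y L X ε) →
      ∃ (b0 b1 : Bool) (tg : ℕ → ℕ → Bool) (y : ℕ → ℕ → ℕ → ℕ → ℝ) (L : ℕ → ℕ → ℕ → ℕ → ℕ → ℝ)
        (X : ℕ → ℕ → ℝ) (ε : ℕ → ℝ),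
        Half (n + 2) (NR n ((lins rs).map lpair)) (rowC oR (((lins rs).map lpair).map PPR))
          (rowK ((lins rs).map klK)) (fun r => decide (rowK ((lins rs).map klK) r = 0) || tg 0 r)
          (cf3 oR (PPR f0)) (m || b0) (y 0) (L 0) (X 0) (ε 0) ∧
        Half (n + 2) (NR n ((lins rs).map lpair)) (rowC oR (((lins rs).map lpair).map PPR))
          (rowK ((lins rs).map klK)) (fun r => decide (rowK ((lins rs).map klK) r = 0) || tg 1 r)
          (cf3 oR (PPR f1)) (m || b1) (y 1) (L 1) (X 1) (ε 1) := by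
    rintro f0 f1 m ⟨d0, t0, y0, L0, X0, e0, h0⟩ ⟨d1, t1, y1, L1, X1, e1, h1⟩
    exact ⟨d0, d1, fun h => if h = 0 then t0 else t1, fun h => if h = 0 then y0 else y1,
      fun h => if h = 0 then L0 else L1, fun h => if h = 0 then X0 else X1,
      fun h => if h = 0 then e0 else e1, by simpa using h0, by simpa using h1⟩
  obtain ⟨d, ⟨b1, b2⟩, s, t⟩ := ρ
  cases b1
  · cases b2
    · have hx4 : t.eval x < s.eval x := by simpa [sgh] using hx2
      obtain ⟨tg, y, L, X, ε, hh⟩ := ((hH n _ _ (t, s) hl k2 k1 k4 k3).2 x hx3).1 hx4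
      exact comb _ _ _ ⟨true, tg, y, L, X, ε, hh⟩ ⟨true, tg, y, L, X, ε, hh⟩
    · have hx4 : s.eval x < t.eval x := by simpa [sgh] using hx2
      obtain ⟨tg, y, L, X, ε, hh⟩ := ((hH n _ _ (s, t) hl k1 k2 k3 k4).2 x hx3).1 hx4
      exact comb _ _ _ ⟨true, tg, y, L, X, ε, hh⟩ ⟨true, tg, y, L, X, ε, hh⟩
  · have hx4 : s.eval x = t.eval x := by simpa [sgh] using hx2
    obtain ⟨m0, tg, y, L, X, ε, hh⟩ :=
      ((hH n _ _ (s, t) hl k1 k2 k3 k4).2 x hx3).2 hx4.le
    obtain ⟨m1, tg', y', L', X', ε', hh'⟩ :=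
      ((hH n _ _ (t, s) hl k2 k1 k4 k3).2 x hx3).2 hx4.ge
    exact comb _ _ _ ⟨m0, tg, y, L, X, ε, hh⟩ ⟨m1, tg', y', L', X', ε', hh'⟩

/-- completeness of the instance -/
theorem iR_complete (hS : ST_SEM) (hC : ST_CFE) (hR : ST_ROWE) (hH : ST_HX) (hA : ST_ASG) (n : ℕ)
    (rs : List (Rec Term)) (hn : rs.length ≤ n) (ho : ROK n rs) (hc : chk rs = true) (x : ℕ → ℝ)
    (hx : ∀ r ∈ rs, sgh r.2.1 r.2.2 x) (w0 : List Bool) (hw : w0.length = 2 * n) :
    ∃ w1 : List Bool, w1.length = 6 * n + 8 ∧ ∃ x : ℕ → ℝ,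
      ∀ B ∈ iR oT PPT Term.zero Term.one n (w0 ++ w1) rs, PsdAt x B := by
  obtain ⟨b0, b1, tg, y, L, X, ε, h0, h1⟩ := halves hH n rs ho hc x hx
  obtain ⟨z, hz⟩ := hA y L X ε (fun h => (ε h)⁻¹)
  refine ⟨b0 :: b1 :: (List.range (6 * n + 6)).map (fun i => tg (i % 2) (i / 2)), by simp, z, ?_⟩
  have e0 : (w0 ++ (b0 :: b1 :: (List.range (6 * n + 6)).map (fun i => tg (i % 2) (i / 2)))).getD
      (2 * n) false = b0 := by
    rw [List.getD_append_right _ _ _ _ (by omega), hw, Nat.sub_self]
    rfl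
  have e1 : (w0 ++ (b0 :: b1 :: (List.range (6 * n + 6)).map (fun i => tg (i % 2) (i / 2)))).getD
      (2 * n + 1) false = b1 := by
    rw [List.getD_append_right _ _ _ _ (by omega), hw, Nat.add_sub_cancel_left]
    rfl
  have e2 : (w0 ++ (b0 :: b1 :: (List.range (6 * n + 6)).map (fun i => tg (i % 2) (i / 2)))).drop
      (2 * n + 2) = (List.range (6 * n + 6)).map (fun i => tg (i % 2) (i / 2)) := by
    rw [← hw, List.drop_append]
    simp
  have hlen : (lins rs).length ≤ n := (List.length_filter_le _ _).trans hn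
  have tb : ∀ i < 6 * n + 6, ((List.range (6 * n + 6)).map
      (fun i => tg (i % 2) (i / 2))).getD i false = tg (i % 2) (i / 2) := by
    intro i hi
    rw [List.getD_eq_getElem _ _ (by simpa using hi)]
    simp
  unfold iR instO
  rw [List.forall_mem_append, e0, e1, e2]
  constructor
  · refine (sem_half hS hC hR n _ ((lins rs).map lpair) _ _ _ 0 z).2 ⟨?_, ?_⟩
    · obtain ⟨g1, g2, g3, g4, _⟩ := hz 0 (by omega)
      have a1 : (fun a b c => z (vy 0 a b c)) = y 0 :=
        funext fun a => funext fun b => funext fun c => g1 a b c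
      have a2 : (fun r a b c => z (vL 0 r a b c)) = L 0 :=
        funext fun r => funext fun a => funext fun b => funext fun c => g2 r a b c
      have a3 : (fun a => z (vX 0 a)) = X 0 := funext g3
      rw [a1, a2, a3, g4]
      refine half_tg h0 fun r hr => ?_
      simp only [NR, List.length_map] at hr
      beta_reduce
      rw [tb (2 * r) (by omega)]
      have i1 : 2 * r % 2 = 0 := by omega
      have i2 : 2 * r / 2 = r := by omega
      rw [i1, i2]
    · obtain ⟨_, _, _, g4, g5⟩ := hz 0 (by omega)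
      rw [g4, g5]
      have := h0.ep
      rw [mul_inv_cancel₀ this.ne']
  · refine (sem_half hS hC hR n _ ((lins rs).map lpair) _ _ _ 1 z).2 ⟨?_, ?_⟩
    · obtain ⟨g1, g2, g3, g4, _⟩ := hz 1 (by omega)
      have a1 : (fun a b c => z (vy 1 a b c)) = y 1 :=
        funext fun a => funext fun b => funext fun c => g1 a b c
      have a2 : (fun r a b c => z (vL 1 r a b c)) = L 1 :=
        funext fun r => funext fun a => funext fun b => funext fun c => g2 r a b c
      have a3 : (fun a => z (vX 1 a)) = X 1 := funext g3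
      rw [a1, a2, a3, g4]
      refine half_tg h1 fun r hr => ?_
      simp only [NR, List.length_map] at hr
      beta_reduce
      rw [tb (2 * r + 1) (by omega)]
      have i1 : (2 * r + 1) % 2 = 1 := by omega
      have i2 : (2 * r + 1) / 2 = r := by omega
      rw [i1, i2]
    · obtain ⟨_, _, _, g4, g5⟩ := hz 1 (by omega)
      rw [g4, g5]
      have := h1.ep
      rw [mul_inv_cancel₀ this.ne']

/-! ### formulas -/

theorem below_len (t : Term) : ∀ n, t.toks.length ≤ n → t.Below n := by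
  induction t with
  | zero => intros; trivial
  | one => intros; trivial
  | var i =>
    intro n h
    simp only [Term.toks, List.length_cons, List.length_append, List.length_replicate,
      List.length_nil] at h
    change i < n
    omega
  | add s t ihs iht =>
    intro n h
    simp only [Term.toks, List.length_cons, List.length_append] at h
    exact ⟨ihs n (by omega), iht n (by omega)⟩
  | sub s t ihs iht =>
    intro n h
    simp only [Term.toks, List.length_cons, List.length_append] at h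
    exact ⟨ihs n (by omega), iht n (by omega)⟩
  | mul s t ihs iht =>
    intro n h
    simp only [Term.toks, List.length_cons, List.length_append] at h
    exact ⟨ihs n (by omega), iht n (by omega)⟩

theorem recs_below (w : List Bool) (φ : Form) : ∀ k, ∀ r ∈ recs w φ k, ∀ n, φ.toks.length ≤ n →
    r.2.2.1.Below n ∧ r.2.2.2.Below n := by
  have atom : ∀ (s t : Term) (b : Bool × Bool) (d : ℕ) (r : ℕ × ((Bool × Bool) × (Term × Term))),
      r ∈ [((d, (b, (s, t))) : ℕ × ((Bool × Bool) × (Term × Term)))] → ∀ n,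
      s.toks.length + t.toks.length + 1 ≤ n → r.2.2.1.Below n ∧ r.2.2.2.Below n := by
    intro s t b d r hr n hn
    rw [List.mem_singleton] at hr
    subst hr
    exact ⟨below_len s n (by omega), below_len t n (by omega)⟩
  induction φ with
  | lt s t =>
    intro k r hr n hn
    simp only [Form.toks, List.length_cons, List.length_append] at hn
    exact atom s t _ _ r hr n hn
  | le s t =>
    intro k r hr n hn
    simp only [Form.toks, List.length_cons, List.length_append] at hn
    exact atom s t _ _ r hr n hn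
  | eq s t =>
    intro k r hr n hn
    simp only [Form.toks, List.length_cons, List.length_append] at hn
    exact atom s t _ _ r hr n hn
  | ge s t =>
    intro k r hr n hn
    simp only [Form.toks, List.length_cons, List.length_append] at hn
    exact atom s t _ _ r hr n hn
  | gt s t =>
    intro k r hr n hn
    simp only [Form.toks, List.length_cons, List.length_append] at hn
    exact atom s t _ _ r hr n hn
  | and p q ihp ihq =>
    intro k r hr n hn
    simp only [Form.toks, List.length_cons, List.length_append] at hn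
    simp only [recs, List.mem_append] at hr
    rcases hr with hr | hr
    · exact ihp _ r hr n (by omega)
    · exact ihq _ r hr n (by omega)
  | or p q ihp ihq =>
    intro k r hr n hn
    simp only [Form.toks, List.length_cons, List.length_append] at hn
    simp only [recs, List.mem_append] at hr
    rcases hr with hr | hr
    · exact ihp _ r hr n (by omega)
    · exact ihq _ r hr n (by omega)
  | not p ihp =>
    intro k r hr n hn
    simp only [Form.toks, List.length_cons] at hn
    exact ihp _ r hr n (by omega)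

theorem recs_len (w : List Bool) (φ : Form) : ∀ k, (recs w φ k).length ≤ φ.toks.length := by
  induction φ with
  | lt s t | le s t | eq s t | ge s t | gt s t =>
    intro k
    simp only [recs, Form.toks, List.length_cons, List.length_nil]
    omega
  | and p q ihp ihq | or p q ihp ihq =>
    intro k
    simp only [recs, Form.toks, List.length_cons, List.length_append]
    have := ihp (q.toks.length + k)
    have := ihq k
    omega
  | not p ihp =>
    intro k
    simp only [recs, Form.toks, List.length_cons]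
    have := ihp k
    omega

theorem sgb_app (w w' : List Bool) (k : ℕ) (h : 2 * k + 2 ≤ w.length) :
    sgb (w ++ w') k = sgb w k := by
  unfold sgb
  rw [List.getD_append _ _ _ _ (by omega), List.getD_append _ _ _ _ (by omega)]

theorem recs_app (w w' : List Bool) (φ : Form) : ∀ k, 2 * (φ.toks.length + k) ≤ w.length →
    recs (w ++ w') φ k = recs w φ k := by
  induction φ with
  | lt s t | le s t | eq s t | ge s t | gt s t =>
    intro k hk
    simp only [Form.toks, List.length_cons, List.length_append] at hk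
    simp only [recs]
    rw [sgb_app _ _ _ (by unfold pos; omega)]
  | and p q ihp ihq | or p q ihp ihq =>
    intro k hk
    simp only [Form.toks, List.length_cons, List.length_append] at hk
    simp only [recs]
    rw [ihp _ (by omega), ihq _ (by omega)]
  | not p ihp =>
    intro k hk
    simp only [Form.toks, List.length_cons] at hk
    simp only [recs]
    rw [ihp _ (by omega)]

theorem code_len (φ : Form) : φ.code.length = 4 * φ.toks.length := by
  unfold Form.code
  generalize φ.toks = l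
  induction l with
  | nil => rfl
  | cons a l ih =>
    rw [List.flatMap_cons, List.length_append, ih, List.length_cons]
    have : (Tok.bits a).length = 4 := by cases a <;> rfl
    omega

theorem chk_iff (rs : List (Rec Term)) : chk rs = true ↔
    rs.countP (fun r => decide (r.1 = 2)) = 0 ∧ rs.countP (fun r => decide (r.1 = 3)) ≤ 1 ∧
    rs.countP (fun r => decide (4 ≤ r.1)) = 0 := by
  unfold chk
  rw [Bool.and_eq_true, decide_eq_true_eq, List.all_eq_true]
  have e : (nls rs).length = rs.countP (fun r => !decide (r.1 ≤ 1)) := by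
    unfold nls
    rw [List.countP_eq_length_filter]
  rw [e, List.countP_eq_zero, List.countP_eq_zero]
  simp only [decide_eq_true_eq]
  constructor
  · rintro ⟨h1, h2⟩
    have h3 : ∀ r ∈ rs, 2 ≤ r.1 → r.1 = 3 := by
      intro r hr h
      exact h2 r (List.mem_filter.mpr ⟨hr, by simp; omega⟩)
    refine ⟨fun r hr h => ?_, (List.countP_mono_left ?_).trans h1, fun r hr h => ?_⟩
    · have := h3 r hr (by omega)
      omega
    · intro r hr h
      simp only [decide_eq_true_eq] at h
      simp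
      omega
    · have := h3 r hr (by omega)
      omega
  · rintro ⟨h1, h2, h3⟩
    have h4 : ∀ r ∈ rs, 2 ≤ r.1 → r.1 = 3 := by
      intro r hr h
      have := h1 r hr
      have := h3 r hr
      omega
    refine ⟨(List.countP_mono_left ?_).trans h2, fun r hr => ?_⟩
    · intro r hr h
      have h' : ¬ r.1 ≤ 1 := by simpa using h
      simpa using h4 r hr (by omega)
    · obtain ⟨hr1, hr2⟩ := List.mem_filter.mp hr
      have h' : ¬ r.1 ≤ 1 := by simpa using hr2
      exact h4 r hr1 (by omega)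

theorem chk_prof (hB : ST_BEV) (w : List Bool) (φ : Form) :
    chk (recs w φ 0) = true ↔ φ.Prof ∅ 0 1 0 := by
  obtain ⟨h1, h2⟩ := hB.2.2 w φ 0
  rw [chk_iff]
  unfold Form.Prof
  rw [← h1, ← Nat.cast_zero (R := ℕ∞), Nat.cast_le, Nat.cast_le, ← Nat.cast_one (R := ℕ∞),
    Nat.cast_le, Nat.le_zero, Nat.le_zero, List.countP_map, List.countP_map, List.countP_map]
  have e : ∀ r ∈ recs w φ 0, r.1 = atomDeg ∅ r.2.2 := fun r hr => h2 r hr
  have c : ∀ P : ℕ → Bool, (recs w φ 0).countP (fun r => P r.1) =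
      (recs w φ 0).countP (fun r => P (atomDeg ∅ r.2.2)) := by
    intro P
    refine List.countP_congr fun r hr => ?_
    rw [e r hr]
  rw [c fun d => decide (d = 2), c fun d => decide (d = 3), c fun d => decide (4 ≤ d)]
  rfl

/-! ### the reduction -/

def bad : List (List (List Term)) := [[[Term.sub Term.zero Term.one]]]

theorem bad_not (x : ℕ → ℝ) (h : ∀ B ∈ bad, PsdAt x B) : False := by
  have h1 := h [[Term.sub Term.zero Term.one]] (by simp [bad]) (fun _ => 1)
  simp [ent, Term.eval] at h1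
  linarith

/-- encoding of lists of matrices of symbols -/
def encM (B : List (List (List (List Tok)))) : List Bool :=
  (ltoks (ltoks (ltoks fun l : List Tok => l)) B).flatMap Tok.bits

/-- the reduction -/
def FF (ex : List Bool × List Bool → Option (Bool × List RK))
    (sb : List Tok × (List ℕ × List ℕ) → List Tok) (p : List Bool × List Bool) : List Bool :=
  match ex p with
  | none => encM (mapM bad)
  | some q => if q.1 && chk q.2 then
      encM (iR oK (fun z l1 l2 => PS sb (z, (l1, l2))) [Tok.zero] [Tok.one] p.1.length p.2 q.2)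
    else encM (mapM bad)

theorem PTFF (hI : ST_PTI) (hM : ST_MCI) {ex : List Bool × List Bool → Option (Bool × List RK)}
    {sb : List Tok × (List ℕ × List ℕ) → List Tok} (he : PT ex) (hs : PT sb) :
    PT (fun p => FF ex sb p) := by
  have h1 : PT (fun z : (List Bool × List Bool) × (Bool × List RK) =>
      if z.2.1 && chk z.2.2 then
        encM (iR oK (fun z l1 l2 => PS sb (z, (l1, l2))) [Tok.zero] [Tok.one] z.1.1.length z.1.2
          z.2.2)
      else encM (mapM bad)) :=
    PT.ite (PT.and PT.id.snd.fst (PTchk PT.id.snd.snd))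
      (hM.2.2 _ _ (PTiR hI hs (PT.length PT.id.fst.fst) PT.id.fst.snd PT.id.snd.snd)) (PT.const _)
  have h2 := PT.optCase he (PT.const (encM (mapM bad))) h1
  refine h2.congr fun p => ?_
  unfold FF
  rcases ex p with _ | q <;> rfl

theorem st_SDPR (hPS : ST_PTSUB) (hC : ST_CFE) (hR : ST_ROWE) (hH : ST_HX) (hV : ST_IVT)
    (hA : ST_ASG) (hS : ST_SEM) (hI : ST_ISM) (hN : ST_NAT) (hP : ST_PTI) (hM : ST_MCI)
    (hB : ST_BEV) (hE : ST_EXT) : ST_SDPR := by
  obtain ⟨sb, hsb, hsb'⟩ := hPS
  obtain ⟨ex, hex, hex'⟩ := hE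
  have henc : ∀ M : List (List (List Term)), encM (mapM M) = mcode M := fun M => (hM.2.1 M).symm
  refine ⟨FF ex sb, 8 * Polynomial.X + 8, ?_, ?_⟩
  · have h1 := PTFF hP hM hex hsb
    have h2 : PT (fun l : List (Option Bool) =>
        (FF ex sb ((split l).2.1, (split l).2.2)).reverse) :=
      PT.reverse (h1.comp ((PTsplit PT.id).snd.fst.pair (PTsplit PT.id).snd.snd))
    refine polytime_list encPair _ _ h2 ?_
    rintro ⟨u, w⟩
    rw [split_pair]
  · intro u
    have hlen : ∀ n : ℕ, Polynomial.eval n (8 * Polynomial.X + 8 : Polynomial ℕ) = 8 * n + 8 := by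
      intro n
      simp
    constructor
    · rintro ⟨φ, rfl, ⟨X, hX, hprof⟩, x, hx⟩
      have hX' : X = ∅ := Finset.card_eq_zero.mp (Nat.le_zero.mp hX)
      subst hX'
      have hc := code_len φ
      obtain ⟨w00, hw1, hw2⟩ := hB.2.1 φ x
      have key : ∀ w' : List Bool, bev (w00 ++ w') φ 0 = true := fun w' =>
        (hB.1 _ φ 0 x (hw2 w')).2 hx
      obtain ⟨w1, hl1, z, hz⟩ := iR_complete hS hC hR hH hA φ.code.length
        (recs (w00 ++ List.replicate (2 * φ.code.length - 2 * φ.toks.length) false) φ 0)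
        ((recs_len _ φ 0).trans (by omega))
        ⟨(hB.2.2 _ φ 0).2, fun r hr => recs_below _ φ 0 r hr _ (by omega)⟩
        ((chk_prof hB _ φ).2 hprof) x (hw2 _)
        (w00 ++ List.replicate (2 * φ.code.length - 2 * φ.toks.length) false)
        (by rw [List.length_append, List.length_replicate, hw1]; omega)
      refine ⟨(w00 ++ List.replicate (2 * φ.code.length - 2 * φ.toks.length) false) ++ w1, ?_, ?_⟩
      · rw [hlen, List.length_append, List.length_append, List.length_replicate, hw1, hl1]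
        omega
      · have e1 := recs_app
          (w00 ++ List.replicate (2 * φ.code.length - 2 * φ.toks.length) false) w1 φ 0
          (by rw [List.length_append, List.length_replicate, hw1]; omega)
        have e2 : FF ex sb (φ.code,
            (w00 ++ List.replicate (2 * φ.code.length - 2 * φ.toks.length) false) ++ w1) =
            mcode (iR oT PPT Term.zero Term.one φ.code.length
              ((w00 ++ List.replicate (2 * φ.code.length - 2 * φ.toks.length) false) ++ w1)
              (recs (w00 ++ List.replicate (2 * φ.code.length - 2 * φ.toks.length) false)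
                φ 0)) := by
          unfold FF
          rw [(hex' _).1 φ]
          simp only
          rw [List.append_assoc w00, key, chk_rk, ← List.append_assoc, e1,
            (chk_prof hB _ φ).2 hprof, Bool.true_and, if_pos rfl, ← henc, mapM_iR hN hsb']
        rw [e2]
        exact ⟨_, rfl, isMat_iR hI hC hR _ _ _, z, hz⟩
    · rintro ⟨w, -, M, hM1, hM2, x, hx⟩
      by_cases hu : ∃ φ : Form, u = φ.code
      · obtain ⟨φ, rfl⟩ := hu
        unfold FF at hM1
        rw [(hex' w).1 φ] at hM1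
        simp only at hM1
        by_cases hc : (bev w φ 0 && chk ((recs w φ 0).map rk)) = true
        · rw [if_pos hc, ← mapM_iR hN hsb', henc] at hM1
          rw [Bool.and_eq_true, chk_rk] at hc
          rw [← hM.1 _ _ hM1] at hx
          have hc0 := code_len φ
          obtain ⟨z, hz⟩ := iR_sound hS hC hR hH hV φ.code.length w (recs w φ 0)
            ⟨(hB.2.2 _ φ 0).2, fun r hr => recs_below _ φ 0 r hr _ (by omega)⟩ hc.2 x hx
          exact ⟨φ, rfl, ⟨∅, le_rfl, (chk_prof hB w φ).1 hc.2⟩, z, (hB.1 w φ 0 z hz).1 hc.1⟩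
        · rw [if_neg hc, henc] at hM1
          rw [← hM.1 _ _ hM1] at hx
          exact absurd (bad_not x hx) id
      · unfold FF at hM1
        rw [(hex' w).2 u (fun φ h => hu ⟨φ, h⟩)] at hM1
        simp only at hM1
        rw [henc] at hM1
        rw [← hM.1 _ _ hM1] at hx
        exact absurd (bad_not x hx) id

end Pool.Agent.Helper54.DT
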