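import Pool.Agent.Helper11.DT.SSR
import Pool.Agent.Helper18.DCT.DEGF
import Pool.Agent.Helper18.DCT.NAT
import Pool.Agent.Helper18.DCT.SEML
import Pool.Agent.Helper25.DI.EK
import Pool.Agent.Helper30.DCT.ISM
import Pool.Agent.Helper35.DCT.HARDF
import Pool.Agent.Helper38.DCT.PTF
import Pool.Agent.Helper4.DCT.BEV
import Pool.Agent.Helper42.DCT.GINV
import Pool.Agent.Helper42.DCT.ROWE
import Pool.Agent.Helper45.DCT.SSRM
import Pool.Agent.Helper46.DCT.DIR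
import Pool.Agent.Helper46.DCT.HC
import Pool.Agent.Helper46.DCT.HS1
import Pool.Agent.Helper46.DCT.SOC
import Pool.Agent.Helper5.DCT.HS
import Pool.Agent.Helper5.DCT.IVT
import Pool.Agent.Helper5.DCT.LAG
import Pool.Agent.Helper5.DCT.MIN
import Pool.Agent.Helper5.DCT.PSDK
import Pool.Agent.Helper51.DCT.PTC
import Pool.Agent.Helper52.DCT.SEM
import Pool.Agent.Helper52.DI.VNUM
import Pool.Agent.Helper54.DT.BACKP
import Pool.Agent.Helper54.DT.DGS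
import Pool.Agent.Helper54.DT.MAIN3
import Pool.Agent.Helper54.DT.NPP
import Pool.Agent.Helper54.DT.SDPR
import Pool.Agent.Helper7.DCT.PTI
import Pool.Agent.Helper71.DCT.PTSUB
import Pool.Agent.Helper72.DT.TAY3
import Pool.Agent.Helper74.DI.BG
import Pool.Agent.Helper79.DCT.EXT
import Pool.Agent.Helper82.DT.ASG
import Pool.Agent.Helper82.DT.PTFS
import Pool.Agent.Helper82.DT.TAY1
import Pool.Agent.Helper84.DT.CFE
import Pool.Agent.Helper88.DCT.BALL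
import Pool.Agent.Helper88.DCT.EVF
import Pool.Agent.Helper91.DCT.SYS
import Pool.Agent.Helper94.DCT.HX
import Pool.Agent.Helper94.DCT.PTH
import Pool.Agent.Helper97.DCT.MCI

/-!
All modules of the degree classification together.
-/

namespace Pool.Agent.Helper54.DT.All

open Pool.Agent.Helper54.DT

theorem a_EK : Pool.Agent.Helper54.DI.ST_EK := Pool.Agent.Helper25.DI.st_EK
theorem a_VNUM : Pool.Agent.Helper54.DI.ST_VNUM := Pool.Agent.Helper52.DI.st_VNUM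
theorem a_BG : Pool.Agent.Helper54.DI.ST_BG := Pool.Agent.Helper74.DI.st_BG
theorem a_LAG : ST_LAG := Pool.Agent.Helper5.DCT.st_LAG
theorem a_BALL : ST_BALL := Pool.Agent.Helper88.DCT.st_BALL a_LAG
theorem a_EVF : ST_EVF := Pool.Agent.Helper88.DCT.st_EVF a_LAG
theorem a_SYS : ST_SYS := Pool.Agent.Helper91.DCT.st_SYS a_BG a_VNUM
theorem a_DEGF : ST_DEGF := Pool.Agent.Helper18.DCT.st_DEGF
theorem a_PTF : ST_PTF := Pool.Agent.Helper38.DCT.st_PTF
theorem a_PTFS : ST_PTFS := st_PTFS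
theorem a_HARDF : ST_HARDF :=
  Pool.Agent.Helper35.DCT.st_HARDF a_BALL a_SYS a_EVF a_DEGF a_PTF a_PTFS a_EK
theorem a_SSRM : ST_SSRM := Pool.Agent.Helper45.DCT.st_SSRM
theorem a_SSR : ST_SSR := st_SSR a_SSRM
theorem a_EXT : ST_EXT := Pool.Agent.Helper79.DCT.st_EXT
theorem a_BEV : ST_BEV := Pool.Agent.Helper4.DCT.st_BEV
theorem a_DGS : ST_DGS := st_DGS a_EXT a_BEV
theorem a_BACKP : ST_BACKP := st_BACKP a_DGS
theorem a_GINV : ST_GINV := Pool.Agent.Helper42.DCT.st_GINV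
theorem a_PSDK : ST_PSDK := Pool.Agent.Helper5.DCT.st_PSDK
theorem a_HS1 : ST_HS1 := Pool.Agent.Helper46.DCT.st_HS1 a_PSDK
theorem a_HS : ST_HS := Pool.Agent.Helper5.DCT.st_HS a_HS1
theorem a_MIN : ST_MIN := Pool.Agent.Helper5.DCT.st_MIN
theorem a_SOC : ST_SOC := Pool.Agent.Helper46.DCT.st_SOC
theorem a_DIR : ST_DIR := Pool.Agent.Helper46.DCT.st_DIR a_GINV
theorem a_HC : ST_HC := Pool.Agent.Helper46.DCT.st_HC a_MIN a_SOC a_DIR
theorem a_CFE : ST_CFE := st_CFE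
theorem a_ROWE : ST_ROWE := Pool.Agent.Helper42.DCT.st_ROWE a_CFE
theorem a_TAY1 : ST_TAY1 := st_TAY1
theorem a_TAY3 : ST_TAY3 := st_TAY3
theorem a_HX : ST_HX := Pool.Agent.Helper94.DCT.st_HX a_HS a_HC a_TAY1 a_TAY3 a_CFE
theorem a_IVT : ST_IVT := Pool.Agent.Helper5.DCT.st_IVT
theorem a_ASG : ST_ASG := st_ASG
theorem a_SEML : ST_SEML := Pool.Agent.Helper18.DCT.st_SEML
theorem a_SEM : ST_SEM := Pool.Agent.Helper52.DCT.st_SEM a_SEML
theorem a_ISM : ST_ISM := Pool.Agent.Helper30.DCT.st_ISM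
theorem a_NAT : ST_NAT := Pool.Agent.Helper18.DCT.st_NAT
theorem a_PTH : ST_PTH := Pool.Agent.Helper94.DCT.st_PTH
theorem a_PTC : ST_PTC := Pool.Agent.Helper51.DCT.st_PTC
theorem a_PTI : ST_PTI := Pool.Agent.Helper7.DCT.st_PTI a_PTH a_PTC
theorem a_MCI : ST_MCI := Pool.Agent.Helper97.DCT.st_MCI
theorem a_PTSUB : ST_PTSUB := Pool.Agent.Helper71.DCT.st_PTSUB
theorem a_SDPR : ST_SDPR :=
  st_SDPR a_PTSUB a_CFE a_ROWE a_HX a_IVT a_ASG a_SEM a_ISM a_NAT a_PTI a_MCI a_BEV a_EXT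
theorem a_MAIN3 : ST_MAIN3 := st_MAIN3 a_HARDF a_BACKP st_NPP a_SDPR a_SSR

end Pool.Agent.Helper54.DT.All
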