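import Pool.Agent.Helper54.DT.StmtsH

namespace Pool.Agent.Helper54.DT

open Pool.Agent.Helper54.ETR Pool.Agent.Helper54.Poly

theorem st_DGS (hE : ST_EXT) (hB : ST_BEV) : ST_DGS := by
  obtain ⟨ex, hp, hx⟩ := hE
  have hf : PT (fun u : List Bool => match ex (u, []) with
      | none => none
      | some p => some (p.2.map Prod.fst)) := by
    have h1 : PT (fun u : List Bool => ex (u, [])) := hp.comp (PT.id.pair (PT.const _))
    have h3 : PT (fun z : List Bool ×
        (Bool × List (ℕ × ((Bool × Bool) × (List Tok × List Tok)))) =>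
        some (z.2.2.map fun b => b.1)) :=
      PT.osome (PT.map (f := fun z : (List Bool ×
        (Bool × List (ℕ × ((Bool × Bool) × (List Tok × List Tok))))) ×
          (ℕ × ((Bool × Bool) × (List Tok × List Tok))) => z.2.1) PT.id.snd.fst PT.id.snd.snd)
    have h2 := PT.optCase h1 (PT.const (none : Option (List ℕ))) h3
    refine h2.congr fun u => ?_
    rcases ex (u, []) with _ | p <;> rfl
  refine ⟨_, hf, fun φ => ?_, fun u hu => ?_⟩
  · have h1 := (hx []).1 φ
    simp only [h1, Option.some.injEq, List.map_map]
    obtain ⟨h2, h3⟩ := hB.2.2 [] φ 0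
    rw [← h2, List.map_map]
    refine List.map_congr_left fun r hr => ?_
    simp only [Function.comp_apply, rk, atomDeg]
    exact h3 r hr
  · simp only [(hx []).2 u hu]

end Pool.Agent.Helper54.DT
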