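import Pool.Agent.Helper54.DI.Defs3

namespace Pool.Agent.Helper54.ETR

/-- Bounds for the numbers of nonlinear atomic formulas: at most `a` of degree two, `b` of degree
three and `c` of degree at least four, degrees taken in the variables outside `X`. -/
def Form.Prof (X : Finset ℕ) (a b c : ℕ∞) (p : Form) : Prop :=
  ((p.atoms.countP fun z => decide (atomDeg X z = 2) : ℕ) : ℕ∞) ≤ a ∧
  ((p.atoms.countP fun z => decide (atomDeg X z = 3) : ℕ) : ℕ∞) ≤ b ∧
  ((p.atoms.countP fun z => decide (4 ≤ atomDeg X z) : ℕ) : ℕ∞) ≤ c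

/-- The true existential sentences such that for some set `X` of at most `k` variables at most
`a`, `b`, `c` atomic formulas have degree two, three, at least four outside `X`. -/
def PROF (k : ℕ) (a b c : ℕ∞) : Set (List Bool) :=
  {u | ∃ φ : Form, u = φ.code ∧ (∃ X : Finset ℕ, X.card ≤ k ∧ φ.Prof X a b c) ∧
    ∃ x : ℕ → ℝ, φ.Holds x}

/-- The same with `X` empty and at most two atomic formulas altogether. -/
def PROF2 (a b c : ℕ∞) : Set (List Bool) :=
  {u | ∃ φ : Form, u = φ.code ∧ φ.Prof ∅ a b c ∧ φ.atoms.length ≤ 2 ∧ ∃ x : ℕ → ℝ, φ.Holds x}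

/-- Entry of a matrix given as a list of rows. -/
def ent (B : List (List Term)) (i j : ℕ) : Term := (B.getD i []).getD j Term.zero

/-- A square symmetric matrix whose entries are affine functions. -/
def IsMat (B : List (List Term)) : Prop :=
  (∀ r ∈ B, r.length = B.length ∧ ∀ t ∈ r, t.deg ∅ ≤ 1) ∧
  ∀ (i j : ℕ) (x : ℕ → ℝ), (ent B i j).eval x = (ent B j i).eval x

/-- The matrix is positive semidefinite at `x`. -/
def PsdAt (x : ℕ → ℝ) (B : List (List Term)) : Prop :=
  ∀ v : ℕ → ℝ, 0 ≤ ∑ i ∈ Finset.range B.length, ∑ j ∈ Finset.range B.length,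
    v i * v j * (ent B i j).eval x

/-- Symbols of a list. -/
def ltoks {α : Type} (f : α → List Tok) : List α → List Tok
  | [] => [Tok.or]
  | a :: l => Tok.and :: (f a ++ ltoks f l)

/-- The binary string encoding a list of matrices. -/
def mcode (M : List (List (List Term))) : List Bool :=
  (ltoks (ltoks (ltoks Term.toks)) M).flatMap Tok.bits

/-- Semidefinite feasibility: the systems of linear matrix inequalities with a real solution. -/
def SDF : Set (List Bool) :=
  {u | ∃ M : List (List (List Term)), u = mcode M ∧ (∀ B ∈ M, IsMat B) ∧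
    ∃ x : ℕ → ℝ, ∀ B ∈ M, PsdAt x B}

/-- The binary string encoding a list of natural numbers, two bits per binary digit. -/
def natsCode (l : List ℕ) : List Bool :=
  l.flatMap fun a => (Nat.bits a).flatMap (fun b => [true, b]) ++ [false]

/-- Comparison of a sum of square roots of natural numbers with a natural number. -/
def SSR : Set (List Bool) :=
  {u | ∃ (B : ℕ) (l : List ℕ), u = natsCode (B :: l) ∧ (B : ℝ) ≤ (l.map fun a : ℕ => √(a : ℝ)).sum}

/-- Nondeterministic polynomial-time many-one reducibility. -/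
def NPRed (L M : Set (List Bool)) : Prop :=
  ∃ (F : List Bool × List Bool → List Bool) (p : Polynomial ℕ),
    Nonempty (Turing.TM2ComputableInPolyTime encPair (fun l : List Bool => l) F) ∧
    ∀ u, u ∈ L ↔ ∃ w : List Bool, w.length ≤ p.eval u.length ∧ F (u, w) ∈ M

end Pool.Agent.Helper54.ETR
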