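import Pool.Agent.Helper54.DT.StmtsS

/-! Statements of the modules for the hardness of few nonlinear constraints. -/

namespace Pool.Agent.Helper54.DT

open Finset Pool.Agent.Helper54.ETR Pool.Agent.Helper54.Poly Pool.Agent.Helper54.DI

/-- a quadratic form as a list of signed products of two variables -/
abbrev SF := List (Bool × (ℕ × ℕ))

/-- value of a form -/
def sval (z : ℕ → ℝ) (f : SF) : ℝ :=
  (f.map fun e => (if e.1 then 1 else -1) * (z e.2.1 * z e.2.2)).sum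

def cnt (b : Bool) (f : SF) (v w : ℕ) : ℕ :=
  (f.filter fun e => (e.1 == b) && (decide (e.2.1 = v) && decide (e.2.2 = w))).length

/-- coefficient of `z_v z_w` -/
def cR (f : SF) (v w : ℕ) : ℝ := (cnt true f v w : ℝ) - (cnt false f v w : ℝ)

/-- all variables of the forms are below `M` -/
def SFB (M : ℕ) (Fs : List SF) : Prop := ∀ f ∈ Fs, ∀ e ∈ f, e.2.1 < M ∧ e.2.2 < M

/-- Lagrange identity, for one form -/
def ST_LAG : Prop := ∀ (M : ℕ) (f : SF) (z : ℕ → ℝ), SFB M [f] →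
  sval z f = ∑ v ∈ range M, ∑ w ∈ range M, cR f v w * (z v * z w) ∧
  ∑ v ∈ range M, ∑ w ∈ range M, ∑ a ∈ range M, ∑ b ∈ range M,
    (cR f v w * (z a * z b) - cR f a b * (z v * z w)) ^ 2 =
  2 * ((∑ v ∈ range M, ∑ w ∈ range M, cR f v w ^ 2) * (∑ v ∈ range M, z v ^ 2) ^ 2 -
    (sval z f) ^ 2)

/-- the constant of the ball -/
def CC (M : ℕ) (Fs : List SF) : ℝ :=
  (Fs.map fun f => ∑ v ∈ range M, ∑ w ∈ range M, 2 * cR f v w ^ 2).sum

/-- the ball and the cubic inequality; `y l v w a b` are further variables -/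
def BallR (M : ℕ) (Fs : List SF) (z : ℕ → ℝ) (y : ℕ → ℕ → ℕ → ℕ → ℕ → ℝ) : Prop :=
  ∑ v ∈ range M, z v ^ 2 + CC M Fs * ∑ l ∈ range Fs.length, ∑ v ∈ range M, ∑ w ∈ range M,
    ∑ a ∈ range M, ∑ b ∈ range M, y l v w a b ^ 2 ≤ 3

def CubR (M : ℕ) (Fs : List SF) (z : ℕ → ℝ) (y : ℕ → ℕ → ℕ → ℕ → ℕ → ℝ) : Prop :=
  2 ≤ ∑ l ∈ range Fs.length, ∑ v ∈ range M, ∑ w ∈ range M, ∑ a ∈ range M, ∑ b ∈ range M,
    y l v w a b * (cR (Fs.getD l []) v w * (z a * z b) - cR (Fs.getD l []) a b * (z v * z w))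

/-- a common nontrivial zero is a point of the ball where the cubic is large -/
def ST_BALL : Prop := ∀ (M : ℕ) (Fs : List SF), SFB M Fs → 0 < CC M Fs →
  ((∃ z : ℕ → ℝ, (∃ v < M, z v ≠ 0) ∧ ∀ f ∈ Fs, sval z f = 0) ↔
    ∃ z y, BallR M Fs z y ∧ CubR M Fs z y)

/-- form of a gate; `J` is the index of the last number of the chain -/
def gf (J : ℕ) (l : List Tok) : SF :=
  match l.getD 1 Tok.zero, vnum l with
  | Tok.mul, [i, j, k] => [(true, (J + 2 + i, J + 2 + j)), (false, (1 + J, J + 2 + k))]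
  | Tok.add, [i, j, k] => [(true, (J + 2 + i, 0)), (true, (J + 2 + j, 0)), (false, (J + 2 + k, 0))]
  | _, [i] => [(true, (J + 2 + i, 0)), (false, (1 + J, 0))]
  | _, _ => []

/-- the number of variables -/
def MM (g : List (List Tok)) : ℕ := QB g.length + g.length + 3

/-- the forms of a list of gates -/
def FS (g : List (List Tok)) : List SF :=
  [(true, (1, 0)), (true, (1, 0)), (false, (0, 0))] ::
  ((List.range (QB g.length)).map (fun j => [(true, (2 + j, 0)), (false, (1 + j, 1 + j))]) ++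
    (g.map (gf (QB g.length)) ++
    [(List.range (QB g.length + 1 + g.length)).map (fun v => (true, (v + 1, v + 1))) ++
      (true, (QB g.length + g.length + 2, QB g.length + g.length + 2)) ::
      List.replicate (QB g.length + 1 + g.length) (false, (0, 0))]))

/-- the forms have a common zero with first coordinate one iff the gates are satisfiable -/
def ST_SYS : Prop := ∀ E : List Term, (∀ e ∈ E, Basic e) → (∀ e ∈ E, e.Below E.length) →
  SFB (MM (E.map Term.toks)) (FS (E.map Term.toks)) ∧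
  0 < CC (MM (E.map Term.toks)) (FS (E.map Term.toks)) ∧
  ((∃ x : ℕ → ℝ, ∀ e ∈ E, e.eval x = 0) ↔
    ∃ z : ℕ → ℝ, z 0 = 1 ∧ ∀ f ∈ FS (E.map Term.toks), sval z f = 0) ∧
  ∀ z : ℕ → ℝ, (∀ f ∈ FS (E.map Term.toks), sval z f = 0) → z 0 = 0 →
    ∀ v < MM (E.map Term.toks), z v = 0

/-! ### the formulas -/

section generic
variable {τ : Type} (o : Ops τ)

/-- variables -/
def zv (v : ℕ) : ℕ := 2 * v
def yv (l v w a b : ℕ) : ℕ :=
  2 * Nat.pair l (Nat.pair (Nat.pair v w) (Nat.pair a b)) + 1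

def cO (f : SF) (v w : ℕ) : τ := o.sub (nuO o (cnt true f v w)) (nuO o (cnt false f v w))

/-- double sum -/
def sum2 (M : ℕ) (F : ℕ → ℕ → τ) : τ :=
  sumO o ((List.range M).flatMap fun v => (List.range M).map fun w => F v w)

/-- sum over all further variables -/
def sumY (M : ℕ) (Fs : List SF) (F : SF → ℕ → ℕ → ℕ → ℕ → ℕ → τ) : τ :=
  sumO o ((List.range Fs.length).flatMap fun l => (List.range M).flatMap fun v =>
    (List.range M).flatMap fun w => (List.range M).flatMap fun a => (List.range M).map fun b =>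
      F (Fs.getD l []) l v w a b)

/-- the product of two variables `z` -/
def zz (v w : ℕ) : τ := o.mul (o.var (zv v)) (o.var (zv w))

/-- the constant of the ball -/
def CO (M : ℕ) (Fs : List SF) : τ :=
  sumO o (Fs.map fun f => sum2 o M fun v w =>
    o.add (o.mul (cO o f v w) (cO o f v w)) (o.mul (cO o f v w) (cO o f v w)))

/-- the left side of the ball inequality; `p` has value zero and fixes the degree -/
def ballO (M : ℕ) (Fs : List SF) (p : τ) : τ :=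
  o.add (o.add (sumO o ((List.range M).map fun v => zz o v v))
    (o.mul (CO o M Fs) (sumY o M Fs fun _ l v w a b =>
      o.mul (o.var (yv l v w a b)) (o.var (yv l v w a b))))) p

/-- the cubic -/
def cubO (M : ℕ) (Fs : List SF) (p : τ) : τ :=
  o.add (sumY o M Fs fun f l v w a b => o.mul (o.var (yv l v w a b))
    (o.sub (o.mul (cO o f v w) (zz o a b)) (o.mul (cO o f a b) (zz o v w)))) p

/-- value of a form -/
def qO (M : ℕ) (f : SF) : τ := sum2 o M fun v w => o.mul (cO o f v w) (zz o v w)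

/-- terms with value zero of degree 2, 3, 4 -/
def p2 : τ := o.mul o.zero (zz o 0 0)
def p3 : τ := o.mul o.zero (o.mul (o.var 0) (zz o 0 0))
def p4 : τ := o.mul o.zero (o.mul (zz o 0 0) (zz o 0 0))

/-- the quartic -/
def quaO (M : ℕ) (Fs : List SF) : τ :=
  o.add (o.add (o.mul (o.sub (o.var 0) o.one) (o.sub (o.var 0) o.one))
    (sumO o (Fs.map fun f => o.mul (qO o M f) (qO o M f)))) (p4 o)

end generic

/-- one quadratic and one cubic inequality -/
def F23 (M : ℕ) (Fs : List SF) : Form :=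
  Form.and (Form.le (ballO oT M Fs (p2 oT)) (nuO oT 3)) (Form.ge (cubO oT M Fs (p3 oT)) (nuO oT 2))

/-- two cubic inequalities -/
def F33 (M : ℕ) (Fs : List SF) : Form :=
  Form.and (Form.le (ballO oT M Fs (p3 oT)) (nuO oT 3)) (Form.ge (cubO oT M Fs (p3 oT)) (nuO oT 2))

/-- one quartic equation -/
def F4 (M : ℕ) (Fs : List SF) : Form := Form.eq (quaO oT M Fs) Term.zero

/-- quadratic equations -/
def F2 (M : ℕ) (Fs : List SF) : Form :=
  Fs.foldr (fun f φ => Form.and (Form.eq (qO oT M f) Term.zero) φ) (Form.eq (Term.var 0) Term.one)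

/-- meaning of the formulas -/
def ST_EVF : Prop := ∀ (M : ℕ) (Fs : List SF), SFB M Fs →
  ((∃ x : ℕ → ℝ, (F23 M Fs).Holds x) ↔ ∃ z y, BallR M Fs z y ∧ CubR M Fs z y) ∧
  ((∃ x : ℕ → ℝ, (F33 M Fs).Holds x) ↔ ∃ z y, BallR M Fs z y ∧ CubR M Fs z y) ∧
  ((∃ x : ℕ → ℝ, (F4 M Fs).Holds x) ↔ ∃ z : ℕ → ℝ, z 0 = 1 ∧ ∀ f ∈ Fs, sval z f = 0) ∧
  ((∃ x : ℕ → ℝ, (F2 M Fs).Holds x) ↔ ∃ z : ℕ → ℝ, z 0 = 1 ∧ ∀ f ∈ Fs, sval z f = 0)

/-- degrees -/
def ST_DEGF : Prop := ∀ (M : ℕ) (Fs : List SF),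
  (F23 M Fs).Prof ∅ 1 1 0 ∧ (F33 M Fs).Prof ∅ 0 2 0 ∧ (F4 M Fs).Prof ∅ 0 0 1 ∧
  (F2 M Fs).Prof ∅ ⊤ 0 0 ∧ (F23 M Fs).atoms.length = 2 ∧ (F33 M Fs).atoms.length = 2 ∧
  (F4 M Fs).atoms.length = 1

/-- the symbols are computable in polynomial time -/
def ST_PTF : Prop := ∀ (α : Type) [TEnc α] (M : α → ℕ) (Fs : α → List SF), PT M → PT Fs →
  PT (fun a => (F23 (M a) (Fs a)).toks) ∧ PT (fun a => (F33 (M a) (Fs a)).toks) ∧
  PT (fun a => (F4 (M a) (Fs a)).toks) ∧ PT (fun a => (F2 (M a) (Fs a)).toks)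

def ST_PTFS : Prop := ∀ (α : Type) [TEnc α] (g : α → List (List Tok)), PT g →
  PT (fun a => FS (g a)) ∧ PT (fun a => MM (g a))

/-- reductions of the existential theory of the reals to formulas with a property -/
def RedTo (P : Form → Prop) : Prop := ∃ f : List Bool → List Bool,
  Nonempty (Turing.TM2ComputableInPolyTime (fun l : List Bool => l) (fun l => l) f) ∧
  ∀ u, ∃ φ : Form, f u = φ.code ∧ P φ ∧ (u ∈ ETR ↔ ∃ x : ℕ → ℝ, φ.Holds x)

def ST_HARDF : Prop :=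
  RedTo (fun φ => φ.Prof ∅ 1 1 0 ∧ φ.atoms.length ≤ 2) ∧
  RedTo (fun φ => φ.Prof ∅ 0 2 0 ∧ φ.atoms.length ≤ 2) ∧
  RedTo (fun φ => φ.Prof ∅ 0 0 1 ∧ φ.atoms.length ≤ 2) ∧
  RedTo (fun φ => φ.Prof ∅ ⊤ 0 0)

/-! ### sums of square roots -/

/-- value of binary digits -/
def bvl : List Bool → ℕ
  | [] => 0
  | b :: l => (if b then 1 else 0) + 2 * bvl l

/-- numbers as terms -/
def nbT : List Bool → Term
  | [] => Term.zero
  | b :: l => Term.add (Term.mul (Term.add Term.one Term.one) (nbT l))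
      (if b then Term.one else Term.zero)

/-- `3 a z - a² z³` -/
def ssrT (b : List Bool) (i : ℕ) : Term :=
  Term.sub (Term.mul (nuO oT 3) (Term.mul (nbT b) (Term.var i)))
    (Term.mul (Term.mul (nbT b) (Term.var i)) (Term.mul (Term.mul (nbT b) (Term.var i))
      (Term.var i)))

/-- the formula of a list of numbers -/
def ssrF (bs : List (List Bool)) (B : List Bool) : Form :=
  (List.range bs.length).foldr (fun i φ => Form.and (Form.ge (Term.var i) Term.zero) φ)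
    (Form.ge (sumO oT ((List.range bs.length).map fun i => ssrT (bs.getD i []) i))
      (Term.mul (nuO oT 2) (nbT B)))

def ST_SSRM : Prop := ∀ (bs : List (List Bool)) (B : List Bool),
  ((bvl B : ℝ) ≤ (bs.map fun b => √(bvl b : ℝ)).sum ↔ ∃ x : ℕ → ℝ, (ssrF bs B).Holds x) ∧
  (ssrF bs B).Prof ∅ 0 1 0

def ST_SSR : Prop := PolyRed SSR (PROF 0 0 1 0)

/-- the classification -/
def ST_MAIN3 : Prop :=
  (∀ k a : ℕ, InNP (PROF k a 0 0)) ∧
  (PolyRed SSR (PROF 0 0 1 0) ∧ NPRed (PROF 0 0 1 0) SDF) ∧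
  ∀ a b c : ℕ∞, ¬ (b = 0 ∧ c = 0 ∧ a ≠ ⊤) → ¬ (a = 0 ∧ b = 1 ∧ c = 0) →
    PolyRed ETR (PROF 0 a b c) ∧ PolyRed (PROF 0 a b c) ETR ∧
    ((b ≠ 0 ∨ c ≠ 0) → PolyRed ETR (PROF2 a b c))

end Pool.Agent.Helper54.DT
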