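import Pool.Agent.Helper54.DT.Defs
import Pool.Agent.Helper54.DI.StmtsB

/-! Statements of the modules for one cubic inequality and semidefinite feasibility. -/

namespace Pool.Agent.Helper54.DT

open Finset Pool.Agent.Helper54.ETR Pool.Agent.Helper54.Poly

/-! ### linear algebra -/

def ST_GINV : Prop := ∀ (M R : ℕ) (H e : ℕ → ℕ → ℝ) (tg : ℕ → Bool),
  (∀ i j, H i j = H j i) →
  (∀ w : ℕ → ℝ, (∀ r < R, tg r = true → ∑ i ∈ Ico 1 M, e r i * w i = 0) →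
    0 ≤ ∑ i ∈ Ico 1 M, ∑ j ∈ Ico 1 M, w i * w j * H i j) →
  ∃ l : ℕ → ℕ → ℝ, ∀ w : ℕ → ℝ, 0 ≤ ∑ i ∈ Ico 1 M, ∑ j ∈ Ico 1 M, w i * w j * H i j +
    2 * ∑ r ∈ range R, if tg r then
      (∑ i ∈ Ico 1 M, e r i * w i) * (∑ i ∈ Ico 1 M, l r i * w i) else 0

def ST_PSDK : Prop := ∀ (M R : ℕ) (A C e : ℕ → ℕ → ℝ) (tg : ℕ → Bool),
  (∀ i j, C i j = C j i) →
  (∀ w : ℕ → ℝ, 0 ≤ ∑ i ∈ Ico 1 M, ∑ j ∈ Ico 1 M, w i * w j * C i j) →
  (∀ r < R, tg r = true → ∀ j ∈ Ico 1 M, ∑ i ∈ Ico 1 M, e r i * C i j = 0) →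
  (∀ w : ℕ → ℝ, (∀ r < R, tg r = true → ∑ i ∈ Ico 1 M, e r i * w i = 0) →
    0 ≤ ∑ i ∈ Ico 1 M, ∑ j ∈ Ico 1 M, w i * w j * A i j) →
  0 ≤ ∑ i ∈ Ico 1 M, ∑ j ∈ Ico 1 M, A i j * C i j

/-- value of an affine function at a point with coordinate 0 equal to one -/
def lf (M : ℕ) (e X : ℕ → ℝ) : ℝ := ∑ m ∈ range M, e m * X m

def cub (M : ℕ) (S : ℕ → ℕ → ℕ → ℝ) (X : ℕ → ℝ) : ℝ :=
  ∑ a ∈ range M, ∑ b ∈ range M, ∑ c ∈ range M, S a b c * (X a * X b * X c)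

/-- symmetric tensors without coordinate 0 -/
structure Ten (S : ℕ → ℕ → ℕ → ℝ) : Prop where
  s1 : ∀ a b c, S a b c = S b a c
  s2 : ∀ a b c, S a b c = S a c b
  s0 : ∀ b c, S 0 b c = 0

/-- the polyhedron; kinds of rows: 0 equation, 1 strict inequality, other weak inequality -/
structure InK (M R : ℕ) (E : ℕ → ℕ → ℝ) (kd : ℕ → ℕ) (X : ℕ → ℝ) : Prop where
  one : X 0 = 1
  eqz : ∀ r < R, kd r = 0 → lf M (E r) X = 0
  pos : ∀ r < R, kd r = 1 → 0 < lf M (E r) X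
  weak : ∀ r < R, kd r ≠ 0 → 0 ≤ lf M (E r) X

/-- its closure -/
structure InC (M R : ℕ) (E : ℕ → ℕ → ℝ) (kd : ℕ → ℕ) (X : ℕ → ℝ) : Prop where
  one : X 0 = 1
  eqz : ∀ r < R, kd r = 0 → lf M (E r) X = 0
  weak : ∀ r < R, kd r ≠ 0 → 0 ≤ lf M (E r) X

/-- the localizing form -/
def locF (M R : ℕ) (E : ℕ → ℕ → ℝ) (tg : ℕ → Bool) (S : ℕ → ℕ → ℕ → ℝ) (y : ℕ → ℕ → ℕ → ℝ)
    (L : ℕ → ℕ → ℕ → ℕ → ℝ) (a α b β : ℕ) : ℝ :=
  ∑ c ∈ range M, S a b c * (y c α β + y c β α) +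
    ∑ r ∈ range R, if tg r then E r a * L r α b β + E r b * L r β a α else 0

/-- the semidefinite program -/
structure Half (M R : ℕ) (E : ℕ → ℕ → ℝ) (kd : ℕ → ℕ) (tg : ℕ → Bool) (S : ℕ → ℕ → ℕ → ℝ)
    (md : Bool) (y : ℕ → ℕ → ℕ → ℝ) (L : ℕ → ℕ → ℕ → ℕ → ℝ) (X : ℕ → ℝ) (ε : ℝ) : Prop where
  y0 : y 0 0 0 = 1
  y1 : ∀ a < M, ∀ b < M, ∀ c < M, y a b c = y b a c
  y2 : ∀ a < M, ∀ b < M, ∀ c < M, y a b c = y a c b
  mom : ∀ v : ℕ → ℝ, 0 ≤ ∑ a ∈ range M, ∑ b ∈ range M, v a * v b * (y 0 a b + y 0 b a)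
  tight : ∀ r < R, tg r = true → ∀ a < M, ∀ b < M, ∑ m ∈ range M, E r m * y m a b = 0
  row : ∀ r < R, kd r ≠ 0 → 0 ≤ ∑ m ∈ range M, E r m * y m 0 0
  lam : ∀ r < R, tg r = true → ∀ b < M, ∀ c < M, ∑ m ∈ range M, E r m * L r m b c = 0
  loc : ∀ v : ℕ → ℕ → ℝ, 0 ≤ ∑ a ∈ Ico 1 M, ∑ α ∈ range M, ∑ b ∈ Ico 1 M, ∑ β ∈ range M,
    v a α * v b β * locF M R E tg S y L a α b β
  x0 : X 0 = 1
  xz : ∀ r < R, kd r = 0 → lf M (E r) X = 0
  xp : ∀ r < R, kd r = 1 → ε ≤ lf M (E r) X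
  xw : ∀ r < R, kd r ≠ 0 → 0 ≤ lf M (E r) X
  ep : 0 < ε
  m1 : md = true → ∑ a ∈ range M, ∑ b ∈ range M, ∑ c ∈ range M, S a b c * y a b c ≤ -ε
  m2 : md = false → ∑ a ∈ range M, ∑ b ∈ range M, ∑ c ∈ range M, S a b c * y a b c ≤ 0 ∧
    ∀ a < M, X a = y a 0 0

/-- soundness: the point of first moments is not worse than the program -/
def ST_HS1 : Prop := ∀ (M R : ℕ) (E : ℕ → ℕ → ℝ) (kd : ℕ → ℕ) (tg : ℕ → Bool)
  (S : ℕ → ℕ → ℕ → ℝ) (md : Bool) (y : ℕ → ℕ → ℕ → ℝ) (L : ℕ → ℕ → ℕ → ℕ → ℝ) (X : ℕ → ℝ) (ε : ℝ),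
  1 ≤ M → Ten S → (∀ r < R, kd r = 0 → tg r = true) → Half M R E kd tg S md y L X ε →
  InC M R E kd (fun a => y a 0 0) ∧ cub M S (fun a => y a 0 0) ≤
    ∑ a ∈ range M, ∑ b ∈ range M, ∑ c ∈ range M, S a b c * y a b c

def ST_HS : Prop := ∀ (M R : ℕ) (E : ℕ → ℕ → ℝ) (kd : ℕ → ℕ) (tg : ℕ → Bool)
  (S : ℕ → ℕ → ℕ → ℝ) (md : Bool) (y : ℕ → ℕ → ℕ → ℝ) (L : ℕ → ℕ → ℕ → ℕ → ℝ) (X : ℕ → ℝ) (ε : ℝ),
  1 ≤ M → Ten S → (∀ r < R, kd r = 0 → tg r = true) → Half M R E kd tg S md y L X ε →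
  ∃ Z, InK M R E kd Z ∧ cub M S Z ≤ 0 ∧ (md = true → cub M S Z < 0)

/-- minimizers -/
def ST_MIN : Prop := ∀ (M R : ℕ) (E : ℕ → ℕ → ℝ) (kd : ℕ → ℕ) (S : ℕ → ℕ → ℕ → ℝ), 1 ≤ M →
  (∃ B, ∀ X, InC M R E kd X → ∀ a < M, |X a| ≤ B) → (∃ X, InC M R E kd X) →
  ∃ X, InC M R E kd X ∧ ∀ Z, InC M R E kd Z → cub M S X ≤ cub M S Z

/-- second order condition -/
def ST_SOC : Prop := ∀ (M R : ℕ) (E : ℕ → ℕ → ℝ) (kd : ℕ → ℕ) (S : ℕ → ℕ → ℕ → ℝ), 1 ≤ M →
  Ten S → ∀ X, InC M R E kd X → (∀ Z, InC M R E kd Z → cub M S X ≤ cub M S Z) →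
  ∀ w : ℕ → ℝ, (∀ r < R, (kd r = 0 ∨ lf M (E r) X = 0) → ∑ m ∈ Ico 1 M, E r m * w m = 0) →
  0 ≤ ∑ a ∈ Ico 1 M, ∑ b ∈ Ico 1 M, w a * w b * ∑ c ∈ range M, S a b c * X c

/-- Dirac measures -/
def ST_DIR : Prop := ∀ (M R : ℕ) (E : ℕ → ℕ → ℝ) (tg : ℕ → Bool) (S : ℕ → ℕ → ℕ → ℝ) (X : ℕ → ℝ),
  1 ≤ M → Ten S → X 0 = 1 → (∀ r < R, tg r = true → lf M (E r) X = 0) →
  (∀ w : ℕ → ℝ, (∀ r < R, tg r = true → ∑ m ∈ Ico 1 M, E r m * w m = 0) →
    0 ≤ ∑ a ∈ Ico 1 M, ∑ b ∈ Ico 1 M, w a * w b * ∑ c ∈ range M, S a b c * X c) →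
  ∃ L : ℕ → ℕ → ℕ → ℕ → ℝ,
    (∀ r < R, tg r = true → ∀ b < M, ∀ c < M, ∑ m ∈ range M, E r m * L r m b c = 0) ∧
    ∀ v : ℕ → ℕ → ℝ, 0 ≤ ∑ a ∈ Ico 1 M, ∑ α ∈ range M, ∑ b ∈ Ico 1 M, ∑ β ∈ range M,
      v a α * v b β * locF M R E tg S (fun a b c => X a * X b * X c) L a α b β

/-- completeness -/
def ST_HC : Prop := ∀ (M R : ℕ) (E : ℕ → ℕ → ℝ) (kd : ℕ → ℕ) (S : ℕ → ℕ → ℕ → ℝ), 1 ≤ M →
  Ten S → (∃ B, ∀ X, InC M R E kd X → ∀ a < M, |X a| ≤ B) → ∀ X, InK M R E kd X →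
  (cub M S X < 0 → ∃ (tg : ℕ → Bool) (y : ℕ → ℕ → ℕ → ℝ) (L : ℕ → ℕ → ℕ → ℕ → ℝ) (Z : ℕ → ℝ)
    (ε : ℝ), (∀ r, kd r = 0 → tg r = true) ∧ Half M R E kd tg S true y L Z ε) ∧
  (cub M S X ≤ 0 → ∃ (md : Bool) (tg : ℕ → Bool) (y : ℕ → ℕ → ℕ → ℝ) (L : ℕ → ℕ → ℕ → ℕ → ℝ)
    (Z : ℕ → ℝ) (ε : ℝ), (∀ r, kd r = 0 → tg r = true) ∧ Half M R E kd tg S md y L Z ε)

/-! ### operations -/

/-- the ring operations on some representation of terms -/
structure Ops (τ : Type) where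
  zero : τ
  one : τ
  var : ℕ → τ
  add : τ → τ → τ
  sub : τ → τ → τ
  mul : τ → τ → τ

def oT : Ops Term := ⟨Term.zero, Term.one, Term.var, Term.add, Term.sub, Term.mul⟩

def oK : Ops (List Tok) := ⟨[Tok.zero], [Tok.one], vt, fun s t => Tok.add :: (s ++ t),
  fun s t => Tok.sub :: (s ++ t), fun s t => Tok.mul :: (s ++ t)⟩

def oR : Ops ℝ := ⟨0, 1, fun _ => 0, fun a b => a + b, fun a b => a - b, fun a b => a * b⟩

section generic
variable {τ σ : Type} (o : Ops τ)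

def sumO (l : List τ) : τ := l.foldr o.add o.zero

def nuO : ℕ → τ
  | 0 => o.zero
  | n + 1 => o.add (nuO n) o.one

/-- coefficients of an affine function in homogeneous coordinates: 1 is the unit, `i + 2` is
`x_i`; `P l1 l2` is the value at the point with coordinates `count i l1 - count i l2` -/
def cf1 (P : List ℕ → List ℕ → τ) (m : ℕ) : τ :=
  if m = 0 then o.zero else if m = 1 then P [] [] else o.sub (P [m - 2] []) (P [] [])

/-- third difference -/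
def t3 (P : List ℕ → List ℕ → τ) (i j k : ℕ) : τ :=
  o.sub (o.add (o.add (o.add (P [i, j, k] []) (P [i] [])) (P [j] [])) (P [k] []))
    (o.add (o.add (o.add (P [i, j] []) (P [i, k] [])) (P [j, k] [])) (P [] []))

/-- second difference -/
def h2 (P : List ℕ → List ℕ → τ) (i j : ℕ) : τ :=
  o.sub (o.add (P [i, j] []) (P [] [i, j])) (o.add (P [i] [j]) (P [j] [i]))

/-- the symmetric tensor of 72 times a polynomial of degree at most three -/
def cf3 (P : List ℕ → List ℕ → τ) (a b c : ℕ) : τ :=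
  if a = 0 ∨ b = 0 ∨ c = 0 then o.zero else
  match ([a, b, c].filter (fun i => decide (2 ≤ i))).map (fun i => i - 2) with
  | [] => o.mul (nuO o 72) (P [] [])
  | [i] => o.sub (o.mul (nuO o 12) (o.sub (P [i] []) (P [] [i]))) (o.mul (nuO o 4) (t3 o P i i i))
  | [i, j] => o.mul (nuO o 3) (h2 o P i j)
  | i :: j :: k :: _ => o.mul (nuO o 12) (t3 o P i j k)

/-- coefficients of the rows: linear atomic formulas, positivity of the unit, the cube -/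
def rowC (lin : List (List ℕ → List ℕ → τ)) (r m : ℕ) : τ :=
  if r < lin.length then cf1 o (lin.getD r fun _ _ => o.zero) m
  else if r = lin.length then (if m = 1 then o.one else o.zero)
  else if m = 0 then o.one
  else if m = (r - lin.length - 1) / 2 + 1 then
    (if (r - lin.length - 1) % 2 = 0 then o.sub o.zero o.one else o.one)
  else o.zero

/-- kinds of the rows -/
def rowK (kl : List ℕ) (r : ℕ) : ℕ :=
  if r < kl.length then kl.getD r 0 else if r = kl.length then 1 else 2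

/-! variables -/

def vy (h a b c : ℕ) : ℕ := 2 * (3 * Nat.pair (Nat.pair a b) c) + h
def vL (h r a b c : ℕ) : ℕ := 2 * (3 * Nat.pair (Nat.pair r a) (Nat.pair b c) + 1) + h
def vX (h a : ℕ) : ℕ := 2 * (3 * (a + 2) + 2) + h
def ve (h : ℕ) : ℕ := 2 * 2 + h
def vt2 (h : ℕ) : ℕ := 2 * (3 * 1 + 2) + h

/-- an equation -/
def eqn (t : τ) : List (List (List τ)) := [[[t]], [[o.sub o.zero t]]]

/-- entry of the localizing matrix -/
def locE (M R : ℕ) (E : ℕ → ℕ → τ) (tg : ℕ → Bool) (S : ℕ → ℕ → ℕ → τ) (h a α b β : ℕ) : τ :=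
  o.add
    (sumO o ((List.range M).map fun c => o.mul (S a b c)
      (o.add (o.var (vy h c α β)) (o.var (vy h c β α)))))
    (sumO o ((List.range R).map fun r => if tg r then
      o.add (o.mul (E r a) (o.var (vL h r α b β))) (o.mul (E r b) (o.var (vL h r β a α)))
      else o.zero))

/-- the value of the objective -/
def objE (M : ℕ) (S : ℕ → ℕ → ℕ → τ) (h : ℕ) : τ :=
  sumO o ((List.range M).flatMap fun a => (List.range M).flatMap fun b =>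
    (List.range M).map fun c => o.mul (S a b c) (o.var (vy h a b c)))

/-- value of a row -/
def linE (M : ℕ) (e : ℕ → τ) (v : ℕ → ℕ) : τ :=
  sumO o ((List.range M).map fun m => o.mul (e m) (o.var (v m)))

/-- the matrices of the semidefinite program -/
def half (M R : ℕ) (E : ℕ → ℕ → τ) (kd : ℕ → ℕ) (tg : ℕ → Bool) (S : ℕ → ℕ → ℕ → τ) (md : Bool)
    (h : ℕ) : List (List (List τ)) :=
  eqn o (o.sub (o.var (vy h 0 0 0)) o.one) ++
  ((List.range M).flatMap fun a => (List.range M).flatMap fun b => (List.range M).flatMap fun c =>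
    [[[o.sub (o.var (vy h a b c)) (o.var (vy h b a c))]],
     [[o.sub (o.var (vy h a b c)) (o.var (vy h a c b))]]]) ++
  [(List.range M).map fun a => (List.range M).map fun b =>
    o.add (o.var (vy h 0 a b)) (o.var (vy h 0 b a))] ++
  ((List.range R).flatMap fun r => if tg r then
    (List.range M).flatMap fun a => (List.range M).flatMap fun b =>
      eqn o (linE o M (E r) fun m => vy h m a b) else []) ++
  ((List.range R).flatMap fun r => if kd r = 0 then [] else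
    [[[linE o M (E r) fun m => vy h m 0 0]]]) ++
  ((List.range R).flatMap fun r => if tg r then
    (List.range M).flatMap fun b => (List.range M).flatMap fun c =>
      eqn o (linE o M (E r) fun m => vL h r m b c) else []) ++
  [(List.range ((M - 1) * M)).map fun i => (List.range ((M - 1) * M)).map fun j =>
    locE o M R E tg S h (i / M + 1) (i % M) (j / M + 1) (j % M)] ++
  eqn o (o.sub (o.var (vX h 0)) o.one) ++
  ((List.range R).flatMap fun r => if kd r = 0 then eqn o (linE o M (E r) (vX h)) else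
    if kd r = 1 then [[[o.sub (linE o M (E r) (vX h)) (o.var (ve h))]],
      [[linE o M (E r) (vX h)]]]
    else [[[linE o M (E r) (vX h)]]]) ++
  [[[o.var (ve h), o.one], [o.one, o.var (vt2 h)]]] ++
  (if md then [[[o.sub (o.sub o.zero (objE o M S h)) (o.var (ve h))]]] else
    [[o.sub o.zero (objE o M S h)]] ::
      ((List.range M).flatMap fun a => eqn o (o.sub (o.var (vX h a)) (o.var (vy h a 0 0)))))

/-- the instance: `P` evaluates differences, `f0`, `f1` are the two objectives -/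
def instO (P : σ × σ → List ℕ → List ℕ → τ) (n : ℕ) (wb : ℕ → Bool) (kl : List ℕ)
    (lin : List (σ × σ)) (f0 f1 : σ × σ) (m0 m1 : Bool) : List (List (List τ)) :=
  half o (n + 2) (lin.length + 1 + 2 * (n + 1)) (rowC o (lin.map P)) (rowK kl)
    (fun r => decide (rowK kl r = 0) || wb (2 * r)) (cf3 o (P f0)) m0 0 ++
  half o (n + 2) (lin.length + 1 + 2 * (n + 1)) (rowC o (lin.map P)) (rowK kl)
    (fun r => decide (rowK kl r = 0) || wb (2 * r + 1)) (cf3 o (P f1)) m1 1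

end generic

/-! ### terms -/

/-- substitution -/
def subst (g : ℕ → Term) : Term → Term
  | Term.zero => Term.zero
  | Term.one => Term.one
  | Term.var i => g i
  | Term.add s t => Term.add (subst g s) (subst g t)
  | Term.sub s t => Term.sub (subst g s) (subst g t)
  | Term.mul s t => Term.mul (subst g s) (subst g t)

/-- integer points -/
def pT (l1 l2 : List ℕ) (i : ℕ) : Term := Term.sub (nuO oT (l1.count i)) (nuO oT (l2.count i))

def pv (l1 l2 : List ℕ) (i : ℕ) : ℝ := (l1.count i : ℝ) - (l2.count i : ℝ)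

/-- differences at integer points -/
def PPT (z : Term × Term) (l1 l2 : List ℕ) : Term :=
  Term.sub (subst (pT l1 l2) z.1) (subst (pT l1 l2) z.2)

def PPR (z : Term × Term) (l1 l2 : List ℕ) : ℝ := z.1.eval (pv l1 l2) - z.2.eval (pv l1 l2)

/-- the symbols of a value at an integer point -/
def ST_PTSUB : Prop := ∃ sb : List Tok × (List ℕ × List ℕ) → List Tok, PT sb ∧
  ∀ (t : Term) (l1 l2 : List ℕ), sb (t.toks, (l1, l2)) = (subst (pT l1 l2) t).toks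

/-- coefficients are closed terms with the right values -/
def ST_CFE : Prop := ∀ (z : Term × Term) (x : ℕ → ℝ),
  (∀ m, (cf1 oT (PPT z) m).deg ∅ = 0 ∧ (cf1 oT (PPT z) m).eval x = cf1 oR (PPR z) m) ∧
  (∀ a b c, (cf3 oT (PPT z) a b c).deg ∅ = 0 ∧
    (cf3 oT (PPT z) a b c).eval x = cf3 oR (PPR z) a b c) ∧
  Ten (cf3 oR (PPR z))

def ST_ROWE : Prop := ∀ (lin : List (Term × Term)) (x : ℕ → ℝ) (r m : ℕ),
  (rowC oT (lin.map PPT) r m).deg ∅ = 0 ∧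
  (rowC oT (lin.map PPT) r m).eval x = rowC oR (lin.map PPR) r m

/-- homogeneous coordinates of a point -/
def hX (u : ℝ) (x : ℕ → ℝ) : ℕ → ℝ
  | 0 => 1
  | 1 => u
  | i + 2 => u * x i

/-- expansions of polynomials of degree one and three -/
def ST_TAY1 : Prop := ∀ (s t : Term) (n : ℕ), s.deg ∅ ≤ 1 → t.deg ∅ ≤ 1 → s.Below n →
  t.Below n → ∀ (u : ℝ) (x : ℕ → ℝ),
  lf (n + 2) (cf1 oR (PPR (s, t))) (hX u x) = u * (s.eval x - t.eval x)

def ST_TAY3 : Prop := ∀ (s t : Term) (n : ℕ), s.deg ∅ ≤ 3 → t.deg ∅ ≤ 3 → s.Below n →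
  t.Below n → ∀ (u : ℝ) (x : ℕ → ℝ),
  cub (n + 2) (cf3 oR (PPR (s, t))) (hX u x) = 72 * u ^ 3 * (s.eval x - t.eval x)

/-- linear atomic formulas with their kinds -/
def LinOK (n : ℕ) (kl : List ℕ) (lin : List (Term × Term)) : Prop :=
  kl.length = lin.length ∧ (∀ k ∈ kl, k ≤ 1) ∧
  ∀ z ∈ lin, z.1.deg ∅ ≤ 1 ∧ z.2.deg ∅ ≤ 1 ∧ z.1.Below n ∧ z.2.Below n

def LinAt (kl : List ℕ) (lin : List (Term × Term)) (x : ℕ → ℝ) : Prop :=
  ∀ z ∈ kl.zip lin, (z.1 = 0 → z.2.1.eval x = z.2.2.eval x) ∧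
    (z.1 ≠ 0 → z.2.2.eval x < z.2.1.eval x)

/-- the semidefinite program for formulas -/
def ST_HX : Prop := ∀ (n : ℕ) (kl : List ℕ) (lin : List (Term × Term)) (f : Term × Term),
  LinOK n kl lin → f.1.deg ∅ ≤ 3 → f.2.deg ∅ ≤ 3 → f.1.Below n → f.2.Below n →
  (∀ (tg : ℕ → Bool) (md : Bool) (y : ℕ → ℕ → ℕ → ℝ) (L : ℕ → ℕ → ℕ → ℕ → ℝ) (X : ℕ → ℝ) (ε : ℝ),
    (∀ r, rowK kl r = 0 → tg r = true) →
    Half (n + 2) (lin.length + 1 + 2 * (n + 1)) (rowC oR (lin.map PPR)) (rowK kl) tg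
      (cf3 oR (PPR f)) md y L X ε →
    ∃ x : ℕ → ℝ, LinAt kl lin x ∧ f.1.eval x ≤ f.2.eval x ∧
      (md = true → f.1.eval x < f.2.eval x)) ∧
  ∀ x : ℕ → ℝ, LinAt kl lin x →
    (f.1.eval x < f.2.eval x → ∃ (tg : ℕ → Bool) (y : ℕ → ℕ → ℕ → ℝ) (L : ℕ → ℕ → ℕ → ℕ → ℝ)
      (X : ℕ → ℝ) (ε : ℝ), Half (n + 2) (lin.length + 1 + 2 * (n + 1)) (rowC oR (lin.map PPR))
        (rowK kl) (fun r => decide (rowK kl r = 0) || tg r) (cf3 oR (PPR f)) true y L X ε) ∧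
    (f.1.eval x ≤ f.2.eval x → ∃ (md : Bool) (tg : ℕ → Bool) (y : ℕ → ℕ → ℕ → ℝ)
      (L : ℕ → ℕ → ℕ → ℕ → ℝ) (X : ℕ → ℝ) (ε : ℝ),
      Half (n + 2) (lin.length + 1 + 2 * (n + 1)) (rowC oR (lin.map PPR)) (rowK kl)
        (fun r => decide (rowK kl r = 0) || tg r) (cf3 oR (PPR f)) md y L X ε)

/-- the linear part defines a convex set -/
def ST_IVT : Prop := ∀ (n : ℕ) (kl : List ℕ) (lin : List (Term × Term)) (f : Term × Term),
  LinOK n kl lin → ∀ x1 x2 : ℕ → ℝ, LinAt kl lin x1 → LinAt kl lin x2 →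
  f.1.eval x1 ≤ f.2.eval x1 → f.2.eval x2 ≤ f.1.eval x2 →
  ∃ x : ℕ → ℝ, LinAt kl lin x ∧ f.1.eval x = f.2.eval x

/-! ### the instance -/

/-- assignments -/
def ST_ASG : Prop := ∀ (y : ℕ → ℕ → ℕ → ℕ → ℝ) (L : ℕ → ℕ → ℕ → ℕ → ℕ → ℝ) (X : ℕ → ℕ → ℝ)
  (ε τ : ℕ → ℝ), ∃ x : ℕ → ℝ, ∀ h < 2, (∀ a b c, x (vy h a b c) = y h a b c) ∧
    (∀ r a b c, x (vL h r a b c) = L h r a b c) ∧ (∀ a, x (vX h a) = X h a) ∧
    x (ve h) = ε h ∧ x (vt2 h) = τ h

/-- a block indexed by pairs -/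
def ST_SEML : Prop := ∀ (M : ℕ) (G : ℕ → ℕ → ℕ → ℕ → Term) (x : ℕ → ℝ), 1 ≤ M →
  (PsdAt x ((List.range ((M - 1) * M)).map fun i => (List.range ((M - 1) * M)).map fun j =>
      G (i / M + 1) (i % M) (j / M + 1) (j % M)) ↔
    ∀ v : ℕ → ℕ → ℝ, 0 ≤ ∑ a ∈ Ico 1 M, ∑ α ∈ range M, ∑ b ∈ Ico 1 M, ∑ β ∈ range M,
      v a α * v b β * (G a α b β).eval x)

/-- meaning of the matrices -/
def ST_SEM : Prop := ∀ (M R : ℕ) (E : ℕ → ℕ → Term) (kd : ℕ → ℕ) (tg : ℕ → Bool)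
  (S : ℕ → ℕ → ℕ → Term) (md : Bool) (h : ℕ) (x : ℕ → ℝ), 1 ≤ M →
  ((∀ B ∈ half oT M R E kd tg S md h, PsdAt x B) ↔
    (Half M R (fun r m => (E r m).eval x) kd tg (fun a b c => (S a b c).eval x) md
      (fun a b c => x (vy h a b c)) (fun r a b c => x (vL h r a b c)) (fun a => x (vX h a))
      (x (ve h)) ∧ 1 ≤ x (ve h) * x (vt2 h)))

/-- the matrices are symmetric matrices of affine functions -/
def ST_ISM : Prop := ∀ (M R : ℕ) (E : ℕ → ℕ → Term) (kd : ℕ → ℕ) (tg : ℕ → Bool)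
  (S : ℕ → ℕ → ℕ → Term) (md : Bool) (h : ℕ), (∀ r m, (E r m).deg ∅ = 0) →
  (∀ a b c, (S a b c).deg ∅ = 0) → (∀ a b c (x : ℕ → ℝ), (S a b c).eval x = (S b a c).eval x) →
  ∀ B ∈ half oT M R E kd tg S md h, IsMat B

/-- symbols of the instance -/
def mapM (M : List (List (List Term))) : List (List (List (List Tok))) :=
  M.map fun B => B.map fun r => r.map Term.toks

def ST_NAT : Prop := ∀ (P : List Tok × List Tok → List ℕ → List ℕ → List Tok),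
  (∀ (z : Term × Term) l1 l2, (PPT z l1 l2).toks = P (z.1.toks, z.2.toks) l1 l2) →
  ∀ (n : ℕ) (wb : ℕ → Bool) (kl : List ℕ) (lin : List (Term × Term)) (f0 f1 : Term × Term)
    (m0 m1 : Bool), mapM (instO oT PPT n wb kl lin f0 f1 m0 m1) =
    instO oK P n wb kl (lin.map fun z => (z.1.toks, z.2.toks)) (f0.1.toks, f0.2.toks)
      (f1.1.toks, f1.2.toks) m0 m1

/-- the matrices are computable in polynomial time -/
def ST_PTH : Prop := ∀ (α : Type) [TEnc α] (M R : α → ℕ) (E : α → ℕ → ℕ → List Tok)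
  (kd : α → ℕ → ℕ) (tg : α → ℕ → Bool) (S : α → ℕ → ℕ → ℕ → List Tok) (md : α → Bool) (h : ℕ),
  PT M → PT R → PT (fun z : α × (ℕ × ℕ) => E z.1 z.2.1 z.2.2) →
  PT (fun z : α × ℕ => kd z.1 z.2) → PT (fun z : α × ℕ => tg z.1 z.2) →
  PT (fun z : α × (ℕ × (ℕ × ℕ)) => S z.1 z.2.1 z.2.2.1 z.2.2.2) → PT md →
  PT (fun a => half oK (M a) (R a) (E a) (kd a) (tg a) (S a) (md a) h)

/-- the coefficients are computable in polynomial time -/
def ST_PTC : Prop := ∀ (P : (List Tok × List Tok) × (List ℕ × List ℕ) → List Tok), PT P →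
  ∀ (α : Type) [TEnc α] (kl : α → List ℕ) (lin : α → List (List Tok × List Tok))
    (f : α → List Tok × List Tok), PT kl → PT lin → PT f →
  PT (fun z : α × (ℕ × ℕ) =>
    rowC oK ((lin z.1).map fun p l1 l2 => P (p, (l1, l2))) z.2.1 z.2.2) ∧
  PT (fun z : α × ℕ => rowK (kl z.1) z.2) ∧
  PT (fun z : α × (ℕ × (ℕ × ℕ)) =>
    cf3 oK (fun l1 l2 => P (f z.1, (l1, l2))) z.2.1 z.2.2.1 z.2.2.2)

/-- the instance is computable in polynomial time -/
def ST_PTI : Prop := ∀ (P : (List Tok × List Tok) × (List ℕ × List ℕ) → List Tok), PT P →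
  ∀ (α : Type) [TEnc α] (n : α → ℕ) (wb : α → List Bool) (kl : α → List ℕ)
    (lin : α → List (List Tok × List Tok)) (f0 f1 : α → List Tok × List Tok) (m0 m1 : α → Bool),
  PT n → PT wb → PT kl → PT lin → PT f0 → PT f1 → PT m0 → PT m1 →
  PT (fun a => instO oK (fun z l1 l2 => P (z, (l1, l2))) (n a)
    (fun i => (wb a).getD i false) (kl a) (lin a) (f0 a) (f1 a) (m0 a) (m1 a))

/-- the encoding of lists of matrices -/
def ST_MCI : Prop := (∀ M N : List (List (List Term)), mcode M = mcode N → M = N) ∧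
  (∀ M, mcode M = (ltoks (ltoks (ltoks fun l => l)) (mapM M)).flatMap Tok.bits) ∧
  ∀ (α : Type) [TEnc α] (B : α → List (List (List (List Tok)))), PT B →
    PT (fun a => (ltoks (ltoks (ltoks fun l : List Tok => l)) (B a)).flatMap Tok.bits)

/-! ### formulas -/

/-- sign bits of the atomic formula at position `k`: (equal, less) -/
def sgb (w : List Bool) (k : ℕ) : Bool × Bool := (w.getD (2 * k) false, w.getD (2 * k + 1) false)

def pos (s t : Term) (k : ℕ) : ℕ := s.toks.length + t.toks.length + k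

/-- value of the formula for given signs; `k` is the number of symbols to the right -/
def bev (w : List Bool) : Form → ℕ → Bool
  | Form.lt s t, k => !(sgb w (pos s t k)).1 && (sgb w (pos s t k)).2
  | Form.le s t, k => (sgb w (pos s t k)).1 || (sgb w (pos s t k)).2
  | Form.eq s t, k => (sgb w (pos s t k)).1
  | Form.ge s t, k => (sgb w (pos s t k)).1 || !(sgb w (pos s t k)).2
  | Form.gt s t, k => !(sgb w (pos s t k)).1 && !(sgb w (pos s t k)).2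
  | Form.and p q, k => bev w p (q.toks.length + k) && bev w q k
  | Form.or p q, k => bev w p (q.toks.length + k) || bev w q k
  | Form.not p, k => !bev w p k

/-- atomic formulas with degree and sign bits -/
def recs (w : List Bool) : Form → ℕ → List (ℕ × ((Bool × Bool) × (Term × Term)))
  | Form.lt s t, k => [(max (s.deg ∅) (t.deg ∅), (sgb w (pos s t k), (s, t)))]
  | Form.le s t, k => [(max (s.deg ∅) (t.deg ∅), (sgb w (pos s t k), (s, t)))]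
  | Form.eq s t, k => [(max (s.deg ∅) (t.deg ∅), (sgb w (pos s t k), (s, t)))]
  | Form.ge s t, k => [(max (s.deg ∅) (t.deg ∅), (sgb w (pos s t k), (s, t)))]
  | Form.gt s t, k => [(max (s.deg ∅) (t.deg ∅), (sgb w (pos s t k), (s, t)))]
  | Form.and p q, k => recs w p (q.toks.length + k) ++ recs w q k
  | Form.or p q, k => recs w p (q.toks.length + k) ++ recs w q k
  | Form.not p, k => recs w p k

/-- the sign bits are right at `x` -/
def sgh (b : Bool × Bool) (z : Term × Term) (x : ℕ → ℝ) : Prop :=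
  if b.1 then z.1.eval x = z.2.eval x else
    if b.2 then z.1.eval x < z.2.eval x else z.2.eval x < z.1.eval x

def ST_BEV : Prop :=
  (∀ (w : List Bool) (φ : Form) (k : ℕ) (x : ℕ → ℝ), (∀ r ∈ recs w φ k, sgh r.2.1 r.2.2 x) →
    (bev w φ k = true ↔ φ.Holds x)) ∧
  (∀ (φ : Form) (x : ℕ → ℝ), ∃ w : List Bool, w.length = 2 * φ.toks.length ∧ ∀ w' : List Bool,
    ∀ r ∈ recs (w ++ w') φ 0, sgh r.2.1 r.2.2 x) ∧
  (∀ (w : List Bool) (φ : Form) (k : ℕ), (recs w φ k).map (fun r => r.2.2) = φ.atoms ∧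
    ∀ r ∈ recs w φ k, r.1 = max (r.2.2.1.deg ∅) (r.2.2.2.deg ∅))

def rk (r : ℕ × ((Bool × Bool) × (Term × Term))) : ℕ × ((Bool × Bool) × (List Tok × List Tok)) :=
  (r.1, (r.2.1, (r.2.2.1.toks, r.2.2.2.toks)))

/-- extraction of the atomic formulas -/
def ST_EXT : Prop := ∃ ex : List Bool × List Bool →
    Option (Bool × List (ℕ × ((Bool × Bool) × (List Tok × List Tok)))), PT ex ∧
  ∀ w : List Bool, (∀ φ : Form, ex (φ.code, w) = some (bev w φ 0, (recs w φ 0).map rk)) ∧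
    ∀ u : List Bool, (∀ φ : Form, u ≠ φ.code) → ex (u, w) = none

/-- the list of the degrees of the atomic formulas -/
def ST_DGS : Prop := ∃ dg : List Bool → Option (List ℕ), PT dg ∧
  (∀ φ : Form, dg φ.code = some (φ.atoms.map (atomDeg ∅))) ∧
  ∀ u : List Bool, (∀ φ : Form, u ≠ φ.code) → dg u = none

/-! ### results -/

def ST_NPP : Prop := ∀ k a : ℕ, InNP (PROF k a 0 0)

def ST_BACKP : Prop := ∀ a b c : ℕ∞, PolyRed (PROF 0 a b c) ETR

def ST_SDPR : Prop := NPRed (PROF 0 0 1 0) SDF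

end Pool.Agent.Helper54.DT
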